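import Pool.Agent.Lib.Pc848f8k.Det

/-!
# MP_c848f8_an, all k: the density of the volume and its bounds
-/

set_option autoImplicit false

namespace Pool.Agent.Lib.Pc848f8k

open Finset

/-- the density for `q = k - 1` extra variables; `ρ = s + ε²(1+t)` -/
noncomputable def dens (q : ℕ) (c ε γ t s : ℝ) : ℝ :=
  (1 + c / (s + ε ^ 2 * (1 + t))) ^ q *
    (1 + c * (ε ^ 2 * (1 + t)) / (s + ε ^ 2 * (1 + t)) ^ 2 +
      c * γ * ε ^ 2 / (s + ε ^ 2 * (1 + t)) ^ 2 *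
        (s + ε ^ 2 * (1 + c / (s + ε ^ 2 * (1 + t))))) /
    (1 + c / (s + ε ^ 2 * (1 + t)))

lemma dens_formula (q : ℕ) {c ε γ t s : ℝ} (hc : 0 < c) (hε : 0 < ε) (hγ : 0 ≤ γ) (ht : 0 ≤ t)
    (hs : 0 ≤ s) (N : ℝ) (hN : N = 1 + t + s / ε ^ 2) :
    (1 + c * γ / N) * (1 + c * (ε ^ 2)⁻¹ / N) ^ q *
      (1 - ((c * γ * t / N ^ 2) / (1 + c * γ / N) +
        (c * (ε ^ 2)⁻¹ * (s / ε ^ 2) / N ^ 2) / (1 + c * (ε ^ 2)⁻¹ / N))) = dens q c ε γ t s := by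
  have hρ : 0 < s + ε ^ 2 * (1 + t) := by positivity
  have hN0 : 0 < N := by rw [hN]; positivity
  have hNρ : s + ε ^ 2 * (1 + t) = ε ^ 2 * N := by
    rw [hN]; field_simp; ring
  have hs' : s = ε ^ 2 * (N - 1 - t) := by
    rw [hN]; field_simp; ring
  have h1 : c * (ε ^ 2)⁻¹ / N = c / (ε ^ 2 * N) := by field_simp
  unfold dens
  rw [hNρ, h1]
  have hp : 0 < 1 + c / (ε ^ 2 * N) := by positivity
  have hk : 0 < 1 + c * γ / N := by positivity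
  rw [eq_div_iff hp.ne']
  have e1 : (1 + c * γ / N) * (1 - (c * γ * t / N ^ 2 / (1 + c * γ / N) +
      c * (ε ^ 2)⁻¹ * (s / ε ^ 2) / N ^ 2 / (1 + c / (ε ^ 2 * N)))) * (1 + c / (ε ^ 2 * N)) =
      (1 + c * γ / N) * (1 + c / (ε ^ 2 * N)) - (c * γ * t / N ^ 2) * (1 + c / (ε ^ 2 * N)) -
        (c * (ε ^ 2)⁻¹ * (s / ε ^ 2) / N ^ 2) * (1 + c * γ / N) := by
    field_simp
    ring
  have e2 : (1 + c * γ / N) * (1 + c / (ε ^ 2 * N)) - (c * γ * t / N ^ 2) *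
      (1 + c / (ε ^ 2 * N)) - (c * (ε ^ 2)⁻¹ * (s / ε ^ 2) / N ^ 2) * (1 + c * γ / N) =
      1 + c * (ε ^ 2 * (1 + t)) / (ε ^ 2 * N) ^ 2 +
      c * γ * ε ^ 2 / (ε ^ 2 * N) ^ 2 *
        (s + ε ^ 2 * (1 + c / (ε ^ 2 * N))) := by
    rw [hs']
    field_simp
    ring
  calc _ = (1 + c / (ε ^ 2 * N)) ^ q * ((1 + c * γ / N) * (1 - (c * γ * t / N ^ 2 /
      (1 + c * γ / N) + c * (ε ^ 2)⁻¹ * (s / ε ^ 2) / N ^ 2 / (1 + c / (ε ^ 2 * N)))) *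
      (1 + c / (ε ^ 2 * N))) := by ring
    _ = _ := by rw [e1, e2]

lemma one_le_pow_sub {c θ : ℝ} (hc : 0 < c) (hθ : 0 ≤ θ) (i : ℕ) :
    (1 + c * θ) ^ i - 1 ≤ ((1 + c) ^ i - 1) * (1 + θ ^ i) := by
  rw [add_comm 1 (c * θ), add_comm 1 c, add_pow, add_pow, Finset.sum_range_succ',
    Finset.sum_range_succ']
  simp only [pow_zero, one_pow, mul_one, Nat.sub_zero, Nat.choose_zero_right, Nat.cast_one,
    one_mul, add_sub_cancel_right]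
  rw [Finset.sum_mul]
  apply Finset.sum_le_sum
  intro j hj
  have hj' : j + 1 ≤ i := by
    have := Finset.mem_range.mp hj; omega
  have h1 : θ ^ (j + 1) ≤ 1 + θ ^ i := by
    rcases le_total θ 1 with h | h
    · have : θ ^ (j + 1) ≤ 1 := pow_le_one₀ hθ h
      have := pow_nonneg hθ i
      linarith
    · have : θ ^ (j + 1) ≤ θ ^ i := pow_le_pow_right₀ h hj'
      linarith
  have h2 : 0 ≤ c ^ (j + 1) * (i.choose (j + 1) : ℝ) := by positivity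
  calc (c * θ) ^ (j + 1) * (i.choose (j + 1) : ℝ) =
      c ^ (j + 1) * (i.choose (j + 1) : ℝ) * θ ^ (j + 1) := by rw [mul_pow]; ring
    _ ≤ c ^ (j + 1) * (i.choose (j + 1) : ℝ) * (1 + θ ^ i) :=
      mul_le_mul_of_nonneg_left h1 h2

lemma alpha_le {a : ℝ} (ha : 0 ≤ a) (i : ℕ) : a * (1 + a) ^ i ≤ (1 + a) ^ (i + 1) - 1 := by
  have h1 : 1 ≤ (1 + a) ^ i := one_le_pow₀ (by linarith)
  have h2 : (1 + a) ^ (i + 1) = (1 + a) ^ i + a * (1 + a) ^ i := by rw [pow_succ]; ring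
  rw [h2]
  linarith

lemma pow_sub_mono {c : ℝ} (hc : 0 < c) {i j : ℕ} (h : i ≤ j) :
    (1 + c) ^ i - 1 ≤ (1 + c) ^ j - 1 := by
  have := pow_le_pow_right₀ (by linarith : (1:ℝ) ≤ 1 + c) h
  linarith

lemma dens_zero {c ε γ t : ℝ} (hc : 0 < c) (hε : 0 < ε) (ht : 0 ≤ t) :
    dens 0 c ε γ t 0 = 1 + c * γ * ε ^ 4 / (ε ^ 2 * (1 + t)) ^ 2 := by
  unfold dens
  simp only [pow_zero, zero_add, one_mul]
  have h : 0 < 1 + t := by linarith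
  have h2 : 0 < 1 + c / (ε ^ 2 * (1 + t)) := by positivity
  rw [div_eq_iff h2.ne']
  field_simp

/-- upper bound for `q ≥ 1` -/
lemma dens_succ_le (q : ℕ) {c ε γ t s : ℝ} (hc : 0 < c) (hε : 0 < ε) (hγ : 0 ≤ γ)
    (ht : 0 ≤ t) (hs : 0 ≤ s) (ρ : ℝ) (hρ : ρ = s + ε ^ 2 * (1 + t)) :
    dens (q + 1) c ε γ t s ≤ 1 + ((1 + c) ^ (q + 2) - 1) *
      ((1 + (1 / ρ) ^ q) + (1 + ε ^ 2 * (1 + t) * (1 / ρ) ^ (q + 2)) +
        γ * (ε ^ 2 * (1 + (1 / ρ) ^ (q + 1))) + γ * (ε ^ 2 + ε ^ 4 * (1 / ρ) ^ (q + 3))) := by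
  have hb0 : 0 < ε ^ 2 * (1 + t) := by positivity
  have hρ0 : 0 < ρ := by rw [hρ]; positivity
  have hbρ : ε ^ 2 * (1 + t) ≤ ρ := by rw [hρ]; linarith
  have hsρ : s ≤ ρ := by rw [hρ]; linarith
  have heρ : ε ^ 2 ≤ ρ := by
    rw [hρ]
    nlinarith [sq_nonneg ε]
  set b : ℝ := ε ^ 2 * (1 + t) with hb
  set A : ℝ := (1 + c) ^ (q + 2) - 1 with hA
  have hA0 : 0 ≤ A := by
    have := one_le_pow₀ (n := q + 2) (by linarith : (1:ℝ) ≤ 1 + c)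
    linarith
  set θ : ℝ := 1 / ρ with hθ
  have hθ0 : 0 < θ := by positivity
  have hθρ : θ * ρ = 1 := by rw [hθ]; field_simp
  set a : ℝ := c / ρ with ha
  have ha' : a = c * θ := by rw [ha, hθ]; ring
  have ha0 : 0 < a := by positivity
  have hp : 0 < 1 + a := by linarith
  have e : dens (q + 1) c ε γ t s = (1 + a) ^ q + a * (1 + a) ^ q * (b * θ) +
      a * (1 + a) ^ q * (γ * ε ^ 2 * (s * θ)) + a * (1 + a) ^ (q + 1) * (γ * ε ^ 4 * θ) := by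
    have x1 : c * b / ρ ^ 2 = a * (b * θ) := by rw [ha, hθ]; field_simp
    have x2 : c * γ * ε ^ 2 / ρ ^ 2 = a * θ * (γ * ε ^ 2) := by rw [ha, hθ]; field_simp
    unfold dens
    rw [← hb, ← hρ, ← ha, div_eq_iff hp.ne', x1, x2]
    ring
  rw [e]
  have t1 : (1 + a) ^ q - 1 ≤ A * (1 + θ ^ q) := by
    rw [ha']
    refine (one_le_pow_sub hc hθ0.le q).trans ?_
    exact mul_le_mul_of_nonneg_right (pow_sub_mono hc (by omega)) (by positivity)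
  have t2' : a * (1 + a) ^ q ≤ A * (1 + θ ^ (q + 1)) := by
    refine (alpha_le ha0.le q).trans ?_
    rw [ha']
    refine (one_le_pow_sub hc hθ0.le (q + 1)).trans ?_
    exact mul_le_mul_of_nonneg_right (pow_sub_mono hc (by omega)) (by positivity)
  have t3' : a * (1 + a) ^ (q + 1) ≤ A * (1 + θ ^ (q + 2)) := by
    refine (alpha_le ha0.le (q + 1)).trans ?_
    rw [ha']
    exact one_le_pow_sub hc hθ0.le (q + 2)
  have hbθ : b * θ ≤ 1 := by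
    calc b * θ ≤ ρ * θ := mul_le_mul_of_nonneg_right hbρ hθ0.le
      _ = 1 := by rw [mul_comm]; exact hθρ
  have hsθ : s * θ ≤ 1 := by
    calc s * θ ≤ ρ * θ := mul_le_mul_of_nonneg_right hsρ hθ0.le
      _ = 1 := by rw [mul_comm]; exact hθρ
  have heθ : ε ^ 2 * θ ≤ 1 := by
    calc ε ^ 2 * θ ≤ ρ * θ := mul_le_mul_of_nonneg_right heρ hθ0.le
      _ = 1 := by rw [mul_comm]; exact hθρ
  have hbθ0 : 0 ≤ b * θ := by positivity
  have t2 : a * (1 + a) ^ q * (b * θ) ≤ A * (1 + b * θ ^ (q + 2)) := by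
    calc a * (1 + a) ^ q * (b * θ) ≤ A * (1 + θ ^ (q + 1)) * (b * θ) :=
          mul_le_mul_of_nonneg_right t2' hbθ0
      _ = A * (b * θ + b * θ ^ (q + 2)) := by rw [pow_succ θ (q + 1)]; ring
      _ ≤ A * (1 + b * θ ^ (q + 2)) := by
          apply mul_le_mul_of_nonneg_left _ hA0
          linarith
  have t3 : a * (1 + a) ^ q * (γ * ε ^ 2 * (s * θ)) ≤ A * (γ * (ε ^ 2 * (1 + θ ^ (q + 1)))) := by
    have h0 : γ * ε ^ 2 * (s * θ) ≤ γ * ε ^ 2 := by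
      have : 0 ≤ γ * ε ^ 2 := by positivity
      nlinarith
    calc a * (1 + a) ^ q * (γ * ε ^ 2 * (s * θ)) ≤ A * (1 + θ ^ (q + 1)) * (γ * ε ^ 2) :=
          mul_le_mul t2' h0 (by positivity) (by positivity)
      _ = _ := by ring
  have t4 : a * (1 + a) ^ (q + 1) * (γ * ε ^ 4 * θ) ≤
      A * (γ * (ε ^ 2 + ε ^ 4 * θ ^ (q + 3))) := by
    calc a * (1 + a) ^ (q + 1) * (γ * ε ^ 4 * θ) ≤ A * (1 + θ ^ (q + 2)) * (γ * ε ^ 4 * θ) :=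
          mul_le_mul_of_nonneg_right t3' (by positivity)
      _ = A * (γ * (ε ^ 2 * (ε ^ 2 * θ) + ε ^ 4 * θ ^ (q + 3))) := by
          rw [pow_succ θ (q + 2)]; ring
      _ ≤ A * (γ * (ε ^ 2 + ε ^ 4 * θ ^ (q + 3))) := by
          apply mul_le_mul_of_nonneg_left _ hA0
          apply mul_le_mul_of_nonneg_left _ hγ
          have : 0 ≤ ε ^ 2 := by positivity
          nlinarith
  calc _ ≤ (1 + A * (1 + θ ^ q)) + A * (1 + b * θ ^ (q + 2)) +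
        A * (γ * (ε ^ 2 * (1 + θ ^ (q + 1)))) + A * (γ * (ε ^ 2 + ε ^ 4 * θ ^ (q + 3))) := by
        linarith
    _ = _ := by ring

/-- the uniform upper bound; `u` plays the role of the sup norm of `w'` -/
lemma dens_le (q : ℕ) {c ε γ t s u : ℝ} (hc : 0 < c) (hε : 0 < ε) (hε1 : ε ≤ 1) (hγ : 0 ≤ γ)
    (ht : 0 ≤ t) (hu0 : 0 < u ∨ q = 0) (hu1 : u < 1) (hu' : 0 ≤ u) (hus : u ^ 2 ≤ s)
    (hq : q = 0 → s = 0) :
    dens q c ε γ t s ≤ 1 + 4 * ((1 + c) ^ (q + 1) - 1) *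
      ((1 + ε * γ) * (u ^ (2 * q - 1))⁻¹ +
        ε ^ 2 * (1 + t) / (u ^ 2 + ε ^ 2 * (1 + t)) ^ (q + 1) +
        γ * (ε ^ 4 / (u ^ 2 + ε ^ 2 * (1 + t)) ^ (q + 2))) := by
  have hb0 : 0 < ε ^ 2 * (1 + t) := by positivity
  have hA0 : 0 ≤ (1 + c) ^ (q + 1) - 1 := by
    have := one_le_pow₀ (n := q + 1) (by linarith : (1:ℝ) ≤ 1 + c)
    linarith
  rcases q with _ | q
  · have hs0 := hq rfl
    subst hs0
    have hu : u = 0 := by nlinarith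
    subst hu
    rw [dens_zero hc hε ht]
    have h1 : 0 ≤ (1 + ε * γ) * ((0:ℝ) ^ (2 * 0 - 1))⁻¹ + ε ^ 2 * (1 + t) /
        ((0:ℝ) ^ 2 + ε ^ 2 * (1 + t)) ^ (0 + 1) := by positivity
    have h2 : 0 ≤ γ * (ε ^ 4 / ((0:ℝ) ^ 2 + ε ^ 2 * (1 + t)) ^ (0 + 2)) := by positivity
    have h3 : c * γ * ε ^ 4 / (ε ^ 2 * (1 + t)) ^ 2 =
        ((1 + c) ^ (0 + 1) - 1) * (γ * (ε ^ 4 / ((0:ℝ) ^ 2 + ε ^ 2 * (1 + t)) ^ (0 + 2))) := by
      simp only [zero_add, pow_one, add_sub_cancel_left]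
      rw [show (0:ℝ) ^ 2 = 0 by norm_num, zero_add]
      ring
    rw [h3]
    nlinarith
  · have hu : 0 < u := by
      rcases hu0 with h | h
      · exact h
      · omega
    have hs : 0 ≤ s := le_trans (sq_nonneg u) hus
    refine (dens_succ_le q hc hε hγ ht hs _ rfl).trans ?_
    set ρ : ℝ := s + ε ^ 2 * (1 + t) with hρ
    set ρ' : ℝ := u ^ 2 + ε ^ 2 * (1 + t) with hρ'
    set b : ℝ := ε ^ 2 * (1 + t) with hb
    set A : ℝ := (1 + c) ^ (q + 2) - 1 with hA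
    have hρ0 : 0 < ρ := by positivity
    have hρ'0 : 0 < ρ' := by positivity
    have hρρ : ρ' ≤ ρ := by rw [hρ, hρ']; linarith
    have hθ : 1 / ρ ≤ 1 / ρ' := one_div_le_one_div_of_le hρ'0 hρρ
    have hθ0 : 0 < 1 / ρ := by positivity
    set H : ℝ := (u ^ (2 * (q + 1) - 1))⁻¹ with hH
    have hexp : 2 * (q + 1) - 1 = 2 * q + 1 := by omega
    rw [hexp] at hH
    have hH1 : 1 ≤ H := by
      rw [hH]
      exact (one_le_inv₀ (by positivity)).mpr (pow_le_one₀ hu.le hu1.le)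
    have hur : u ^ 2 ≤ ρ := by rw [hρ]; linarith
    have heρ : ε ^ 2 ≤ ρ := by
      rw [hρ, hb]
      nlinarith [sq_nonneg ε]
    have hHq : (1 / ρ) ^ q ≤ H := by
      rw [hH, one_div, inv_pow]
      apply inv_anti₀ (by positivity)
      calc u ^ (2 * q + 1) = (u ^ 2) ^ q * u := by rw [pow_succ, pow_mul]
        _ ≤ ρ ^ q * 1 := mul_le_mul (pow_le_pow_left₀ (by positivity) hur q) hu1.le hu.le
            (by positivity)
        _ = ρ ^ q := mul_one _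
    have hsq : 0 < Real.sqrt ρ := Real.sqrt_pos.mpr hρ0
    have hur' : u ≤ Real.sqrt ρ := Real.le_sqrt_of_sq_le hur
    have heρ' : ε ≤ Real.sqrt ρ := Real.le_sqrt_of_sq_le heρ
    have hHe : ε ^ 2 * (1 / ρ) ^ (q + 1) ≤ ε * H := by
      have h1 : ε * u ^ (2 * q + 1) ≤ ρ ^ (q + 1) := by
        calc ε * u ^ (2 * q + 1) ≤ Real.sqrt ρ * Real.sqrt ρ ^ (2 * q + 1) :=
              mul_le_mul heρ' (pow_le_pow_left₀ hu.le hur' _) (by positivity) hsq.le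
          _ = (Real.sqrt ρ ^ 2) ^ (q + 1) := by rw [← pow_mul]; ring
          _ = ρ ^ (q + 1) := by rw [Real.sq_sqrt hρ0.le]
      rw [hH, one_div, inv_pow]
      rw [← div_eq_mul_inv, ← div_eq_mul_inv, div_le_div_iff₀ (by positivity) (by positivity)]
      calc ε ^ 2 * u ^ (2 * q + 1) = ε * (ε * u ^ (2 * q + 1)) := by ring
        _ ≤ ε * ρ ^ (q + 1) := mul_le_mul_of_nonneg_left h1 hε.le
    have hε2 : ε ^ 2 ≤ ε := by nlinarith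
    have hε2H : ε ^ 2 ≤ ε * H := by nlinarith
    have hp2 : (1 / ρ) ^ (q + 2) ≤ 1 / ρ' ^ (q + 2) := by
      rw [← one_div_pow]
      exact pow_le_pow_left₀ hθ0.le hθ _
    have hp3 : (1 / ρ) ^ (q + 3) ≤ 1 / ρ' ^ (q + 3) := by
      rw [← one_div_pow]
      exact pow_le_pow_left₀ hθ0.le hθ _
    have s2 : b * (1 / ρ) ^ (q + 2) ≤ b / ρ' ^ (q + 1 + 1) := by
      rw [div_eq_mul_one_div b]
      exact mul_le_mul_of_nonneg_left hp2 hb0.le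
    have s3 : ε ^ 4 * (1 / ρ) ^ (q + 3) ≤ ε ^ 4 / ρ' ^ (q + 1 + 2) := by
      rw [div_eq_mul_one_div (ε ^ 4)]
      exact mul_le_mul_of_nonneg_left hp3 (by positivity)
    have hb' : 0 ≤ b / ρ' ^ (q + 1 + 1) := by positivity
    have he' : 0 ≤ ε ^ 4 / ρ' ^ (q + 1 + 2) := by positivity
    have g1 : γ * (ε ^ 2 * (1 + (1 / ρ) ^ (q + 1))) ≤ γ * (2 * (ε * H)) := by
      apply mul_le_mul_of_nonneg_left _ hγ
      nlinarith
    have g2 : γ * (ε ^ 2 + ε ^ 4 * (1 / ρ) ^ (q + 3)) ≤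
        γ * (ε * H + ε ^ 4 / ρ' ^ (q + 1 + 2)) := by
      apply mul_le_mul_of_nonneg_left _ hγ
      linarith
    have key : (1 + (1 / ρ) ^ q) + (1 + b * (1 / ρ) ^ (q + 2)) +
        γ * (ε ^ 2 * (1 + (1 / ρ) ^ (q + 1))) + γ * (ε ^ 2 + ε ^ 4 * (1 / ρ) ^ (q + 3)) ≤
        4 * ((1 + ε * γ) * H + b / ρ' ^ (q + 1 + 1) + γ * (ε ^ 4 / ρ' ^ (q + 1 + 2))) := by
      have hgH : 0 ≤ γ * (ε * H) := by positivity
      have hge : 0 ≤ γ * (ε ^ 4 / ρ' ^ (q + 1 + 2)) := by positivity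
      nlinarith
    calc 1 + A * _ ≤ 1 + A * (4 * ((1 + ε * γ) * H + b / ρ' ^ (q + 1 + 1) +
          γ * (ε ^ 4 / ρ' ^ (q + 1 + 2)))) := by
          have := mul_le_mul_of_nonneg_left key hA0
          linarith
      _ = _ := by ring

/-- lower bound -/
lemma le_dens (q : ℕ) {c ε γ t s : ℝ} (hc : 0 < c) (hε : 0 < ε) (hγ : 0 ≤ γ)
    (ht : 0 ≤ t) (hs : 0 ≤ s) :
    c ^ (q + 1) * γ * ε ^ 4 / (s + ε ^ 2 * (1 + t)) ^ (q + 2) ≤ dens q c ε γ t s := by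
  have hρ0 : 0 < s + ε ^ 2 * (1 + t) := by positivity
  set ρ : ℝ := s + ε ^ 2 * (1 + t) with hρ
  unfold dens
  rw [← hρ]
  set a : ℝ := c / ρ with ha
  have ha0 : 0 < a := by positivity
  have hp : 0 < 1 + a := by linarith
  rw [le_div_iff₀ hp]
  have h1 : a ^ q ≤ (1 + a) ^ q := pow_le_pow_left₀ ha0.le (by linarith) q
  have h2 : c * γ * ε ^ 2 / ρ ^ 2 * (ε ^ 2 * (1 + a)) ≤
      1 + c * (ε ^ 2 * (1 + t)) / ρ ^ 2 + c * γ * ε ^ 2 / ρ ^ 2 * (s + ε ^ 2 * (1 + a)) := by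
    have h3 : 0 ≤ c * (ε ^ 2 * (1 + t)) / ρ ^ 2 := by positivity
    have h4 : 0 ≤ c * γ * ε ^ 2 / ρ ^ 2 * s := by positivity
    linarith [mul_add (c * γ * ε ^ 2 / ρ ^ 2) s (ε ^ 2 * (1 + a))]
  calc c ^ (q + 1) * γ * ε ^ 4 / ρ ^ (q + 2) * (1 + a) =
      a ^ q * (c * γ * ε ^ 2 / ρ ^ 2 * (ε ^ 2 * (1 + a))) := by
        have e1 : a ^ q = c ^ q / ρ ^ q := by rw [ha, div_pow]
        rw [e1]
        field_simp
        ring
    _ ≤ _ := mul_le_mul h1 h2 (by positivity) (by positivity)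

end Pool.Agent.Lib.Pc848f8k
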