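import Mathlib

/-!
# MP_c848f8_an, all k: the determinant of the metric of a graph over `ℙ^k`
-/

set_option autoImplicit false

namespace Pool.Agent.Lib.Pc848f8k

open Matrix ComplexConjugate Finset

/-- diagonal minus rank one -/
lemma det_diag_sub {k : ℕ} (d : Fin k → ℂ) (hd : ∀ a, d a ≠ 0) (u v : Fin k → ℂ) :
    (Matrix.diagonal d - Matrix.of fun a b => u a * v b).det =
      (∏ a, d a) * (1 - ∑ a, v a * u a / d a) := by
  have h1 : Matrix.diagonal d - Matrix.of (fun a b => u a * v b) =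
      Matrix.diagonal d + replicateCol Unit (fun a => - u a) * replicateRow Unit v := by
    ext a b
    simp [Matrix.mul_apply, sub_eq_add_neg]
  have hdet : IsUnit (Matrix.diagonal d).det := by
    rw [Matrix.det_diagonal]
    exact isUnit_iff_ne_zero.mpr (Finset.prod_ne_zero_iff.mpr (fun a _ => hd a))
  have hinv : (Matrix.diagonal d)⁻¹ = Matrix.diagonal (fun a => (d a)⁻¹) := by
    apply Matrix.inv_eq_left_inv
    rw [Matrix.diagonal_mul_diagonal, ← Matrix.diagonal_one]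
    congr 1
    ext a
    exact inv_mul_cancel₀ (hd a)
  rw [h1, Matrix.det_add_replicateCol_mul_replicateRow hdet, Matrix.det_diagonal, hinv]
  congr 1
  rw [Matrix.det_unique, Matrix.add_apply, Matrix.one_apply_eq, sub_eq_add_neg, ← Finset.sum_neg_distrib]
  congr 1
  rw [Matrix.mul_apply]
  apply Finset.sum_congr rfl
  intro a _
  simp only [Matrix.mul_diagonal, replicateRow_apply, replicateCol_apply]
  ring

/-- coefficient matrix of `dd^c log (1 + ‖ζ‖²)` on `ℂ^k` -/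
noncomputable def fs {k : ℕ} (ζ : Fin k → ℂ) (a b : Fin k) : ℂ :=
  ((if a = b then ((1 + ∑ i, ‖ζ i‖ ^ 2 : ℝ) : ℂ) else 0) - conj (ζ a) * ζ b) /
    (((1 + ∑ i, ‖ζ i‖ ^ 2) ^ 2 : ℝ) : ℂ)

lemma det_metric {n k : ℕ} (J : Fin n → Fin k → ℂ) (ζ : Fin k → ℂ) (d : Fin k → ℝ)
    (hd : ∀ a, 0 ≤ d a) (c : ℝ) (hc : 0 < c)
    (ho : ∀ a b, ∑ j, conj (J j a) * J j b = if a = b then (d a : ℂ) else 0) :
    (Matrix.det (1 + Matrix.of fun i j : Fin n => (c : ℂ) * ∑ a, ∑ b,
      fs ζ a b * J i a * conj (J j b))).re =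
    (∏ a, (1 + c * d a / (1 + ∑ i, ‖ζ i‖ ^ 2))) *
      (1 - ∑ a, (c * d a * ‖ζ a‖ ^ 2 / (1 + ∑ i, ‖ζ i‖ ^ 2) ^ 2) /
        (1 + c * d a / (1 + ∑ i, ‖ζ i‖ ^ 2))) := by
  set N : ℝ := 1 + ∑ i, ‖ζ i‖ ^ 2 with hN
  have hN0 : 0 < N := by positivity
  have hNc : (N : ℂ) ≠ 0 := by exact_mod_cast hN0.ne'
  have h1 : (Matrix.of fun i j : Fin n => (c : ℂ) * ∑ a, ∑ b, fs ζ a b * J i a * conj (J j b)) =
      (Matrix.of J) * (Matrix.of (fun a j => (c : ℂ) * ∑ b, fs ζ a b * conj (J j b))) := by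
    ext i j
    simp only [Matrix.of_apply, Matrix.mul_apply, Finset.mul_sum]
    apply Finset.sum_congr rfl
    intro a _
    apply Finset.sum_congr rfl
    intro b _
    ring
  rw [h1, Matrix.det_one_add_mul_comm]
  have h2 : (1 : Matrix (Fin k) (Fin k) ℂ) +
      (Matrix.of (fun a j => (c : ℂ) * ∑ b, fs ζ a b * conj (J j b))) * (Matrix.of J) =
      Matrix.diagonal (fun a => ((1 + c * d a / N : ℝ) : ℂ)) -
        Matrix.of (fun a b => ((c : ℂ) * conj (ζ a) / (N : ℂ) ^ 2) * (ζ b * (d b : ℂ))) := by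
    ext a b
    simp only [Matrix.add_apply, Matrix.mul_apply, Matrix.of_apply, Matrix.sub_apply]
    have h3 : ∑ j, ((c : ℂ) * ∑ b, fs ζ a b * conj (J j b)) * J j b =
        (c : ℂ) * ∑ b', fs ζ a b' * ∑ j, conj (J j b') * J j b := by
      simp only [Finset.mul_sum, Finset.sum_mul]
      rw [Finset.sum_comm]
      apply Finset.sum_congr rfl
      intro b' _
      apply Finset.sum_congr rfl
      intro j _
      ring
    rw [h3]
    simp only [ho]
    have h4 : ∑ b', fs ζ a b' * (if b' = b then (d b' : ℂ) else 0) = fs ζ a b * d b := by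
      rw [Finset.sum_eq_single b]
      · simp
      · intro b' _ hb'
        simp [hb']
      · intro h
        exact absurd (Finset.mem_univ b) h
    rw [h4]
    unfold fs
    rw [← hN]
    rcases eq_or_ne a b with rfl | hab
    · rw [Matrix.one_apply_eq, Matrix.diagonal_apply_eq, if_pos rfl]
      push_cast
      field_simp
      ring
    · rw [Matrix.one_apply_ne hab, Matrix.diagonal_apply_ne _ hab, if_neg hab]
      push_cast
      field_simp
      ring
  have hpos : ∀ a, 0 < 1 + c * d a / N := fun a => by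
    have := hd a
    positivity
  rw [h2, det_diag_sub _ (fun a => by exact_mod_cast (hpos a).ne')]
  have h5 : (∏ a, ((1 + c * d a / N : ℝ) : ℂ)) * (1 - ∑ a, ζ a * (d a : ℂ) *
      ((c : ℂ) * conj (ζ a) / (N : ℂ) ^ 2) / ((1 + c * d a / N : ℝ) : ℂ)) =
      (((∏ a, (1 + c * d a / N)) * (1 - ∑ a, (c * d a * ‖ζ a‖ ^ 2 / N ^ 2) /
        (1 + c * d a / N)) : ℝ) : ℂ) := by
    push_cast
    congr 2
    apply Finset.sum_congr rfl
    intro a _
    congr 1
    have h6 : ζ a * conj (ζ a) = ((‖ζ a‖ : ℝ) : ℂ) ^ 2 := Complex.mul_conj' (ζ a)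
    have h7 : ζ a * (d a : ℂ) * ((c : ℂ) * conj (ζ a) / (N : ℂ) ^ 2) =
        (c : ℂ) * d a * (ζ a * conj (ζ a)) / (N : ℂ) ^ 2 := by ring
    rw [h7, h6]
  rw [h5, Complex.ofReal_re]

end Pool.Agent.Lib.Pc848f8k
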