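import Pool.Agent.Lib.Pc848f8k.Int

/-!
# MP_c848f8_an, all k: Fubini
-/

set_option autoImplicit false

namespace Pool.Agent.Lib.Pc848f8k

open MeasureTheory Set Filter Topology Module
open scoped ENNReal

/-- `Fin.append` as a measurable equivalence -/
noncomputable def apE (m k : ℕ) : ((Fin m → ℂ) × (Fin k → ℂ)) ≃ᵐ (Fin (m + k) → ℂ) :=
  (MeasurableEquiv.sumPiEquivProdPi (fun _ : Fin m ⊕ Fin k => ℂ)).symm.trans
    (MeasurableEquiv.piCongrLeft (fun _ : Fin (m + k) => ℂ) finSumFinEquiv)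

lemma apE_apply (m k : ℕ) (z : Fin m → ℂ) (w : Fin k → ℂ) : apE m k (z, w) = Fin.append z w := by
  funext i
  unfold apE
  rw [MeasurableEquiv.trans_apply]
  refine Fin.addCases (fun j => ?_) (fun j => ?_) i
  · have h := MeasurableEquiv.piCongrLeft_apply_apply (β := fun _ : Fin (m + k) => ℂ)
      (finSumFinEquiv (m := m) (n := k))
      ((MeasurableEquiv.sumPiEquivProdPi (fun _ : Fin m ⊕ Fin k => ℂ)).symm (z, w)) (Sum.inl j)
    rw [finSumFinEquiv_apply_left] at h
    rw [h, Fin.append_left]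
    rfl
  · have h := MeasurableEquiv.piCongrLeft_apply_apply (β := fun _ : Fin (m + k) => ℂ)
      (finSumFinEquiv (m := m) (n := k))
      ((MeasurableEquiv.sumPiEquivProdPi (fun _ : Fin m ⊕ Fin k => ℂ)).symm (z, w)) (Sum.inr j)
    rw [finSumFinEquiv_apply_right] at h
    rw [h, Fin.append_right]
    rfl

lemma apE_preserving (m k : ℕ) : MeasurePreserving (apE m k) volume volume :=
  (volume_measurePreserving_piCongrLeft (fun _ : Fin (m + k) => ℂ) finSumFinEquiv).comp
    (volume_measurePreserving_sumPiEquivProdPi_symm (fun _ : Fin m ⊕ Fin k => ℂ))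

lemma measurable_append (m k : ℕ) :
    Measurable (fun p : (Fin m → ℂ) × (Fin k → ℂ) => Fin.append p.1 p.2) := by
  have h := (apE m k).measurable
  have e : (apE m k : (Fin m → ℂ) × (Fin k → ℂ) → (Fin (m + k) → ℂ)) =
      fun p => Fin.append p.1 p.2 := by
    funext p
    exact apE_apply m k p.1 p.2
  rwa [e] at h

lemma append_mem_pd {m k : ℕ} {z : Fin m → ℂ} {w : Fin k → ℂ} :
    Fin.append z w ∈ pd (m + k) ↔ z ∈ pd m ∧ w ∈ pd k := by
  rw [mem_pd, mem_pd, mem_pd]
  constructor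
  · intro h
    refine ⟨fun i => ?_, fun i => ?_⟩
    · have := h (Fin.castAdd k i)
      rwa [Fin.append_left] at this
    · have := h (Fin.natAdd m i)
      rwa [Fin.append_right] at this
  · rintro ⟨h1, h2⟩ i
    refine Fin.addCases (fun j => ?_) (fun j => ?_) i
    · rw [Fin.append_left]
      exact h1 j
    · rw [Fin.append_right]
      exact h2 j

lemma lintegral_append (m k : ℕ) (g : (Fin (m + k) → ℂ) → ℝ≥0∞) (hg : Measurable g) :
    ∫⁻ x in pd (m + k), g x = ∫⁻ z in pd m, ∫⁻ w in pd k, g (Fin.append z w) := by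
  have h1 := (apE_preserving m k).setLIntegral_comp_preimage (measurableSet_pd (m + k)) hg
  rw [← h1]
  have h2 : (apE m k) ⁻¹' (pd (m + k)) = pd m ×ˢ pd k := by
    ext p
    rw [mem_preimage, ← Prod.mk.eta (p := p), apE_apply, append_mem_pd, mem_prod]
  rw [h2]
  have h3 : ∀ p : (Fin m → ℂ) × (Fin k → ℂ), g (apE m k p) = g (Fin.append p.1 p.2) := by
    intro p
    rw [← apE_apply]
  rw [lintegral_congr h3, Measure.volume_eq_prod]
  exact setLIntegral_prod _ ((hg.comp (measurable_append m k)).aemeasurable)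

lemma measurable_cons (q : ℕ) :
    Measurable (fun p : ℂ × (Fin q → ℂ) => (Fin.cons p.1 p.2 : Fin (q + 1) → ℂ)) := by
  rw [measurable_pi_iff]
  intro i
  refine Fin.cases ?_ (fun j => ?_) i
  · simpa using measurable_fst
  · simp only [Fin.cons_succ]
    exact (measurable_pi_apply j).comp measurable_snd

lemma cons_mem_pd {q : ℕ} {w0 : ℂ} {w : Fin q → ℂ} :
    (Fin.cons w0 w : Fin (q + 1) → ℂ) ∈ pd (q + 1) ↔ w0 ∈ Metric.ball (0:ℂ) 1 ∧ w ∈ pd q := by
  rw [mem_pd, mem_pd, Fin.forall_fin_succ]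
  simp

lemma lintegral_cons (q : ℕ) (g : (Fin (q + 1) → ℂ) → ℝ≥0∞) (hg : Measurable g) :
    ∫⁻ w in pd (q + 1), g w =
      ∫⁻ w0 in Metric.ball (0:ℂ) 1, ∫⁻ w in pd q, g (Fin.cons w0 w) := by
  have hmp := (volume_preserving_piFinSuccAbove (fun _ : Fin (q + 1) => ℂ) 0).symm
  have h1 := hmp.setLIntegral_comp_preimage (measurableSet_pd (q + 1)) hg
  rw [← h1]
  have h0 : ∀ p : ℂ × (Fin q → ℂ),
      (MeasurableEquiv.piFinSuccAbove (fun _ : Fin (q + 1) => ℂ) 0).symm p =
        (Fin.cons p.1 p.2 : Fin (q + 1) → ℂ) := by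
    intro p
    funext i
    refine Fin.cases ?_ (fun j => ?_) i
    · simp [MeasurableEquiv.piFinSuccAbove]
    · simp [MeasurableEquiv.piFinSuccAbove]
  have h2 : (MeasurableEquiv.piFinSuccAbove (fun _ : Fin (q + 1) => ℂ) 0).symm ⁻¹' (pd (q + 1)) =
      Metric.ball (0:ℂ) 1 ×ˢ pd q := by
    ext p
    rw [mem_preimage, h0, cons_mem_pd, mem_prod]
  rw [h2, lintegral_congr (fun p => congrArg g (h0 p)), Measure.volume_eq_prod]
  exact setLIntegral_prod _ ((hg.comp (measurable_cons q)).aemeasurable)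

/-- integral over the polydisk of a function of the first coordinate -/
lemma lintegral_first (p : ℕ) (h : ℂ → ℝ≥0∞) (hh : Measurable h) :
    ∫⁻ z in pd (p + 1), h (z 0) = volume (pd p) * ∫⁻ z in Metric.ball (0:ℂ) 1, h z := by
  rw [lintegral_cons p (fun z => h (z 0)) (hh.comp (measurable_pi_apply 0))]
  simp only [Fin.cons_zero, setLIntegral_const]
  rw [lintegral_mul_const _ hh, mul_comm]

lemma lintegral_total (p q : ℕ) (h : ℂ → ℂ → (Fin q → ℂ) → ℝ≥0∞)
    (hh : Measurable (fun x : ℂ × ℂ × (Fin q → ℂ) => h x.1 x.2.1 x.2.2)) :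
    ∫⁻ x in pd (p + 1 + (q + 1)), h (x (Fin.castAdd (q + 1) 0)) (x (Fin.natAdd (p + 1) 0))
      (fun i => x (Fin.natAdd (p + 1) i.succ)) =
    volume (pd p) * ∫⁻ z in Metric.ball (0:ℂ) 1, ∫⁻ w0 in Metric.ball (0:ℂ) 1,
      ∫⁻ w in pd q, h z w0 w := by
  have hm : Measurable (fun x : Fin (p + 1 + (q + 1)) → ℂ =>
      h (x (Fin.castAdd (q + 1) 0)) (x (Fin.natAdd (p + 1) 0))
        (fun i => x (Fin.natAdd (p + 1) i.succ))) := by
    have h1 : Measurable (fun x : Fin (p + 1 + (q + 1)) → ℂ =>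
      ((x (Fin.castAdd (q + 1) 0), x (Fin.natAdd (p + 1) 0),
        (fun i => x (Fin.natAdd (p + 1) i.succ))) : ℂ × ℂ × (Fin q → ℂ))) := by
      refine (measurable_pi_apply _).prodMk ((measurable_pi_apply _).prodMk ?_)
      exact measurable_pi_iff.mpr (fun i => measurable_pi_apply _)
    exact hh.comp h1
  rw [lintegral_append (p + 1) (q + 1) _ hm]
  simp only [Fin.append_left, Fin.append_right]
  have hm2 : ∀ z : ℂ, Measurable (fun w : Fin (q + 1) → ℂ => h z (w 0) (fun i => w i.succ)) := by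
    intro z
    have h1 : Measurable (fun w : Fin (q + 1) → ℂ =>
      ((z, w 0, (fun i => w i.succ)) : ℂ × ℂ × (Fin q → ℂ))) := by
      refine measurable_const.prodMk ((measurable_pi_apply _).prodMk ?_)
      exact measurable_pi_iff.mpr (fun i => measurable_pi_apply _)
    exact hh.comp h1
  have e : ∀ z : Fin (p + 1) → ℂ, ∫⁻ w in pd (q + 1), h (z 0) (w 0) (fun i => w i.succ) =
      ∫⁻ w0 in Metric.ball (0:ℂ) 1, ∫⁻ w in pd q, h (z 0) w0 w := by
    intro z
    rw [lintegral_cons q _ (hm2 (z 0))]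
    simp only [Fin.cons_zero, Fin.cons_succ]
  rw [lintegral_congr e]
  refine lintegral_first p (fun z => ∫⁻ w0 in Metric.ball (0:ℂ) 1, ∫⁻ w in pd q, h z w0 w) ?_
  have h3 : Measurable (fun x : (ℂ × ℂ) × (Fin q → ℂ) => h x.1.1 x.1.2 x.2) :=
    hh.comp ((measurable_fst.comp measurable_fst).prodMk
      ((measurable_snd.comp measurable_fst).prodMk measurable_snd))
  have h4 : Measurable (fun x : ℂ × ℂ => ∫⁻ w in pd q, h x.1 x.2 w) :=
    Measurable.lintegral_prod_right' (f := fun x : (ℂ × ℂ) × (Fin q → ℂ) => h x.1.1 x.1.2 x.2) h3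
  exact Measurable.lintegral_prod_right' (f := fun x : ℂ × ℂ => ∫⁻ w in pd q, h x.1 x.2 w) h4

end Pool.Agent.Lib.Pc848f8k
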