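import Pool.Agent.Lib.Pc848f8.Multi

/-!
# MP_c848f8_an, all k: bounds for the family
-/

set_option autoImplicit false

namespace Pool.Agent.Lib.Pc848f8k

open MeasureTheory Set Filter Topology
open scoped ENNReal
open Pool.Agent.Lib.Pc848f8

lemma norm_rt_le {N : ℕ} (hN : 1 ≤ N) {z : ℂ} (hz : z ∈ Metric.ball (0:ℂ) 1) : ‖rt N z‖ ≤ 2 := by
  have hz' := mem_ball_zero_iff.mp hz
  have h1 := norm_rt_pow hN hz'
  have h2 : ‖1 - z‖ ≤ 2 := by
    calc ‖1 - z‖ ≤ ‖(1:ℂ)‖ + ‖z‖ := norm_sub_le _ _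
      _ ≤ 2 := by rw [norm_one]; linarith
  by_contra hc
  push Not at hc
  have h3 : ‖rt N z‖ ≤ ‖rt N z‖ ^ N := le_self_pow₀ (by linarith) (by omega)
  linarith

lemma exists_bound (K B : ℝ) {N : ℕ} (hN : 1 ≤ N) : ∃ Γ : ℝ, 0 ≤ Γ ∧
    ∀ z ∈ Metric.ball (0:ℂ) 1, ∀ w ∈ Metric.ball (0:ℂ) 1,
      ‖F K B N z w‖ ≤ Γ ∧ ‖Fw K B N z w‖ ≤ Γ ∧ ‖Ps K B N (rt N z) w‖ ≤ Γ := by
  have hc : IsCompact (Metric.closedBall (0:ℂ) 2 ×ˢ Metric.closedBall (0:ℂ) 1) :=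
    (isCompact_closedBall _ _).prod (isCompact_closedBall _ _)
  have c1 : Continuous (fun p : ℂ × ℂ => P K B N p.1 p.2) := by
    unfold P
    fun_prop
  have c2 : Continuous (fun p : ℂ × ℂ => Pw K B N p.1 p.2) := by
    unfold Pw
    fun_prop
  have c3 : Continuous (fun p : ℂ × ℂ => Ps K B N p.1 p.2) := by
    unfold Ps
    fun_prop
  obtain ⟨C1, h1⟩ := hc.exists_bound_of_continuousOn c1.continuousOn
  obtain ⟨C2, h2⟩ := hc.exists_bound_of_continuousOn c2.continuousOn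
  obtain ⟨C3, h3⟩ := hc.exists_bound_of_continuousOn c3.continuousOn
  refine ⟨max 0 (max C1 (max C2 C3)), le_max_left _ _, ?_⟩
  intro z hz w hw
  have hmem : (rt N z, w) ∈ Metric.closedBall (0:ℂ) 2 ×ˢ Metric.closedBall (0:ℂ) 1 := by
    refine ⟨?_, Metric.ball_subset_closedBall hw⟩
    rw [mem_closedBall_zero_iff]
    exact norm_rt_le hN hz
  refine ⟨?_, ?_, ?_⟩
  · exact (h1 _ hmem).trans ((le_max_left _ _).trans (le_max_right _ _))
  · exact (h2 _ hmem).trans ((le_max_left _ _).trans ((le_max_right _ _).trans (le_max_right _ _)))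
  · exact (h3 _ hmem).trans ((le_max_right _ _).trans ((le_max_right _ _).trans (le_max_right _ _)))

lemma lintegral_rt'_lt_top {N : ℕ} (hN : 1 ≤ N) :
    ∫⁻ z in Metric.ball (0:ℂ) 1, ENNReal.ofReal (‖rt' N z‖ ^ 2) < ⊤ := by
  have h := area_inj (rt N) (Metric.ball 0 1) (Metric.ball 0 1) Metric.isOpen_ball
    (fun z hz => (hasDerivAt_rt N (mem_ball_zero_iff.mp hz)).differentiableAt.differentiableWithinAt)
    measurableSet_ball Subset.rfl (rt_injOn hN) (fun _ => 1)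
  have e : ∫⁻ z in Metric.ball (0:ℂ) 1, ENNReal.ofReal (‖rt' N z‖ ^ 2) =
      ∫⁻ z in Metric.ball (0:ℂ) 1, ENNReal.ofReal (‖deriv (rt N) z‖ ^ 2) * 1 := by
    apply setLIntegral_congr_fun measurableSet_ball
    intro z hz
    simp only [mul_one]
    rw [(hasDerivAt_rt N (mem_ball_zero_iff.mp hz)).deriv]
  rw [e, ← h, setLIntegral_const, one_mul]
  refine lt_of_le_of_lt (measure_mono ?_) (measure_closedBall_lt_top (x := (0:ℂ)) (r := 2))
  rintro _ ⟨z, hz, rfl⟩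
  rw [mem_closedBall_zero_iff]
  exact norm_rt_le hN hz

/-- `∫∫ |∇g|²` -/
noncomputable def Gint (K B : ℝ) (N : ℕ) : ℝ≥0∞ :=
  ∫⁻ z in Metric.ball (0:ℂ) 1, ∫⁻ w in Metric.ball (0:ℂ) 1,
    ENNReal.ofReal (‖Fz K B N z w‖ ^ 2 + ‖Fw K B N z w‖ ^ 2)

lemma Gint_lt_top (K B : ℝ) {N : ℕ} (hN : 1 ≤ N) : Gint K B N < ⊤ := by
  obtain ⟨Γ, hΓ0, hΓ⟩ := exists_bound K B hN
  have hm : Measurable (fun z : ℂ => ENNReal.ofReal (‖rt' N z‖ ^ 2)) :=
    ((measurable_rt' N).norm.pow_const 2).ennreal_ofReal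
  have h1 : Gint K B N ≤ ∫⁻ z in Metric.ball (0:ℂ) 1, ∫⁻ _w in Metric.ball (0:ℂ) 1,
      ENNReal.ofReal (Γ ^ 2) * (ENNReal.ofReal (‖rt' N z‖ ^ 2) + 1) := by
    unfold Gint
    refine setLIntegral_mono' measurableSet_ball (fun z hz => ?_)
    refine setLIntegral_mono' measurableSet_ball (fun w hw => ?_)
    obtain ⟨-, h2, h3⟩ := hΓ z hz w hw
    rw [← ENNReal.ofReal_one, ← ENNReal.ofReal_add (by positivity) zero_le_one,
      ← ENNReal.ofReal_mul (by positivity)]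
    apply ENNReal.ofReal_le_ofReal
    unfold Fz
    rw [norm_mul, mul_pow, mul_add, mul_one]
    have h4 : ‖Ps K B N (rt N z) w‖ ^ 2 ≤ Γ ^ 2 := pow_le_pow_left₀ (norm_nonneg _) h3 2
    have h5 : ‖Fw K B N z w‖ ^ 2 ≤ Γ ^ 2 := pow_le_pow_left₀ (norm_nonneg _) h2 2
    have h6 := mul_le_mul_of_nonneg_right h4 (sq_nonneg ‖rt' N z‖)
    linarith
  refine lt_of_le_of_lt h1 ?_
  simp only [setLIntegral_const]
  rw [lintegral_mul_const _ ((hm.add_const 1).const_mul _),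
    lintegral_const_mul _ (hm.add_const 1), lintegral_add_right _ measurable_const,
    setLIntegral_const, one_mul]
  exact ENNReal.mul_lt_top (ENNReal.mul_lt_top ENNReal.ofReal_lt_top
    (ENNReal.add_lt_top.mpr ⟨lintegral_rt'_lt_top hN, measure_ball_lt_top⟩)) measure_ball_lt_top

end Pool.Agent.Lib.Pc848f8k
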