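import Pool.Agent.Lib.Pc848f8k.Map
import Pool.Agent.Lib.Pc848f8k.Sup
import Pool.Agent.Lib.Pc848f8k.Fub

/-!
# MP_c848f8_an, all k: estimates for the volumes
-/

set_option autoImplicit false

namespace Pool.Agent.Lib.Pc848f8k

open MeasureTheory Set Filter Topology
open scoped ENNReal
open Pool.Agent.Lib.Pc848f8

/-- the constant `(1+c)^{q+1} - 1` -/
noncomputable def AA (q : ℕ) (c : ℝ) : ℝ := (1 + c) ^ (q + 1) - 1

lemma AA_pos (q : ℕ) {c : ℝ} (hc : 0 < c) : 0 < AA q c := by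
  unfold AA
  have := one_lt_pow₀ (by linarith : (1:ℝ) < 1 + c) (by omega : q + 1 ≠ 0)
  linarith

/-- second term -/
noncomputable def q1 (q : ℕ) (ε t : ℝ) (w : Fin q → ℂ) : ℝ≥0∞ :=
  ENNReal.ofReal (ε ^ 2 * (1 + t) / (‖w‖ ^ 2 + ε ^ 2 * (1 + t)) ^ (q + 1))

/-- third term -/
noncomputable def q2 (q : ℕ) (ε t : ℝ) (w : Fin q → ℂ) : ℝ≥0∞ :=
  ENNReal.ofReal (ε ^ 4 / (‖w‖ ^ 2 + ε ^ 2 * (1 + t)) ^ (q + 2))

lemma ofReal_dens_le (q : ℕ) {c ε γ t : ℝ} (hc : 0 < c) (hε : 0 < ε) (hε1 : ε ≤ 1) (hγ : 0 ≤ γ)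
    (ht : 0 ≤ t) (w : Fin q → ℂ) (hw : w ∈ pd q) :
    ENNReal.ofReal (dens q c ε γ t (∑ i, ‖w i‖ ^ 2)) ≤
      1 + ENNReal.ofReal (4 * AA q c) * ((1 + ENNReal.ofReal ε * ENNReal.ofReal γ) * hs q w +
        q1 q ε t w + ENNReal.ofReal γ * q2 q ε t w) := by
  have hA := AA_pos q hc
  by_cases h0 : 0 < ‖w‖ ∨ q = 0
  · have hpow : 0 < ‖w‖ ^ (2 * q - 1) := by
      rcases h0 with h | h
      · positivity
      · subst h
        simp
    have hsum : ‖w‖ ^ 2 ≤ ∑ i, ‖w i‖ ^ 2 := by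
      have h1 : ‖w‖ ≤ Real.sqrt (∑ i, ‖w i‖ ^ 2) := by
        rw [pi_norm_le_iff_of_nonneg (Real.sqrt_nonneg _)]
        intro i
        apply Real.le_sqrt_of_sq_le
        exact Finset.single_le_sum (f := fun i => ‖w i‖ ^ 2) (fun _ _ => by positivity)
          (Finset.mem_univ i)
      calc ‖w‖ ^ 2 ≤ Real.sqrt (∑ i, ‖w i‖ ^ 2) ^ 2 := pow_le_pow_left₀ (norm_nonneg _) h1 2
        _ = _ := Real.sq_sqrt (Finset.sum_nonneg (fun _ _ => by positivity))
    have h1 := dens_le q hc hε hε1 hγ ht h0 (norm_lt_of_mem_pd hw) (norm_nonneg w) hsum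
      (by rintro rfl; simp)
    refine (ENNReal.ofReal_le_ofReal h1).trans (le_of_eq ?_)
    have hb : 0 < ε ^ 2 * (1 + t) := by
      have : 0 < 1 + t := by linarith
      positivity
    have hA' : (1 + c) ^ (q + 1) - 1 = AA q c := rfl
    have p1 : ENNReal.ofReal ((1 + ε * γ) * (‖w‖ ^ (2 * q - 1))⁻¹) =
        (1 + ENNReal.ofReal ε * ENNReal.ofReal γ) * hs q w := by
      unfold hs
      rw [ENNReal.ofReal_mul (by positivity), ENNReal.ofReal_add zero_le_one (by positivity),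
        ENNReal.ofReal_one, ENNReal.ofReal_mul hε.le, ENNReal.ofReal_inv_of_pos hpow]
    have p3 : ENNReal.ofReal (γ * (ε ^ 4 / (‖w‖ ^ 2 + ε ^ 2 * (1 + t)) ^ (q + 2))) =
        ENNReal.ofReal γ * q2 q ε t w := by
      unfold q2
      rw [ENNReal.ofReal_mul hγ]
    rw [hA', ENNReal.ofReal_add zero_le_one (by positivity), ENNReal.ofReal_one,
      ENNReal.ofReal_mul (p := 4 * AA q c) (by positivity),
      ENNReal.ofReal_add (by positivity) (by positivity),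
      ENNReal.ofReal_add (by positivity) (by positivity), p1, p3]
    rfl
  · have hw0 : ‖w‖ = 0 := by
      by_contra hne
      exact h0 (Or.inl (lt_of_le_of_ne (norm_nonneg w) (Ne.symm hne)))
    have hq : q ≠ 0 := fun h => h0 (Or.inr h)
    have hhs : hs q w = ⊤ := by
      unfold hs
      rw [hw0, zero_pow (by omega), ENNReal.ofReal_zero, ENNReal.inv_zero]
    have h2 : (1 + ENNReal.ofReal ε * ENNReal.ofReal γ) * hs q w = ⊤ := by
      rw [hhs]
      apply ENNReal.mul_top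
      exact (lt_of_lt_of_le one_pos le_self_add).ne'
    rw [h2, top_add, top_add, ENNReal.mul_top (by
      rw [ne_eq, ENNReal.ofReal_eq_zero, not_le]
      positivity), add_top]
    exact le_top

lemma measurable_q1 (q : ℕ) (ε t : ℝ) : Measurable (q1 q ε t) := by
  unfold q1
  apply Measurable.ennreal_ofReal
  fun_prop

lemma measurable_q2 (q : ℕ) (ε t : ℝ) : Measurable (q2 q ε t) := by
  unfold q2
  apply Measurable.ennreal_ofReal
  fun_prop

lemma inner_upper' (q : ℕ) {ε t : ℝ} (hε : 0 < ε) (ht : 0 ≤ t) (g1 g : ℝ≥0∞) :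
    ∫⁻ w in pd q, (g1 * hs q w + q1 q ε t w + g * q2 q ε t w) ≤
    g1 * HH q + JJ q (q + 1) + g * (ENNReal.ofReal (1 / (1 + t) ^ 2) * JJ q (q + 2)) :=
  inner_upper q hε ht g1 g

/-! ### total volume -/

/-- the bound for the excess of the total density -/
noncomputable def totb (K B : ℝ) (N q : ℕ) (ε : ℝ) (z w0 : ℂ) (w : Fin q → ℂ) : ℝ≥0∞ :=
  (1 + ENNReal.ofReal ε * ENNReal.ofReal (‖Fz K B N z w0‖ ^ 2 + ‖Fw K B N z w0‖ ^ 2)) * hs q w +
    q1 q ε (‖F K B N z w0‖ ^ 2) w +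
    ENNReal.ofReal (‖Fz K B N z w0‖ ^ 2 + ‖Fw K B N z w0‖ ^ 2) * q2 q ε (‖F K B N z w0‖ ^ 2) w

lemma measurable_gam (K B : ℝ) (N : ℕ) : Measurable (fun p : ℂ × ℂ =>
    ENNReal.ofReal (‖Fz K B N p.1 p.2‖ ^ 2 + ‖Fw K B N p.1 p.2‖ ^ 2)) :=
  (((measurable_Fz K B N).norm.pow_const 2).add
    ((measurable_Fw K B N).norm.pow_const 2)).ennreal_ofReal

lemma measurable_totb (K B : ℝ) (N q : ℕ) (ε : ℝ) :
    Measurable (fun x : ℂ × ℂ × (Fin q → ℂ) => totb K B N q ε x.1 x.2.1 x.2.2) := by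
  unfold totb q1 q2
  have hp : Measurable (fun x : ℂ × ℂ × (Fin q → ℂ) => (x.1, x.2.1)) :=
    measurable_fst.prodMk (measurable_fst.comp measurable_snd)
  have hg := (measurable_gam K B N).comp hp
  have hF := (measurable_F K B N).comp hp
  have hw : Measurable (fun x : ℂ × ℂ × (Fin q → ℂ) => x.2.2) :=
    measurable_snd.comp measurable_snd
  have hh := (measurable_hs q).comp hw
  simp only [Function.comp_def] at hg hF hh
  refine ((((hg.const_mul _).const_add 1).mul hh).add ?_).add (hg.mul ?_)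
  · apply Measurable.ennreal_ofReal
    exact ((((hF.norm.pow_const 2).const_add 1).const_mul _)).div
      (((hw.norm.pow_const 2).add (((hF.norm.pow_const 2).const_add 1).const_mul _)).pow_const _)
  · apply Measurable.ennreal_ofReal
    exact measurable_const.div
      (((hw.norm.pow_const 2).add (((hF.norm.pow_const 2).const_add 1).const_mul _)).pow_const _)

/-- bound for the triple integral -/
lemma lintegral_totb_le (K B : ℝ) (N q : ℕ) {ε : ℝ} (hε : 0 < ε) (TG : ℝ≥0∞)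
    (hTG : ∫⁻ z in Metric.ball (0:ℂ) 1, ∫⁻ w in Metric.ball (0:ℂ) 1, G K B N z w ≤ TG)
    (hG : ENNReal.ofReal ε * Gint K B N ≤ 1) :
    ∫⁻ z in Metric.ball (0:ℂ) 1, ∫⁻ w0 in Metric.ball (0:ℂ) 1, ∫⁻ w in pd q,
      totb K B N q ε z w0 w ≤
    volume (Metric.ball (0:ℂ) 1) * volume (Metric.ball (0:ℂ) 1) * (HH q + JJ q (q + 1)) +
      HH q + JJ q (q + 2) * TG := by
  have h1 : ∀ z w0 : ℂ, ∫⁻ w in pd q, totb K B N q ε z w0 w ≤
      (HH q + JJ q (q + 1)) + (ENNReal.ofReal ε * HH q) *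
        ENNReal.ofReal (‖Fz K B N z w0‖ ^ 2 + ‖Fw K B N z w0‖ ^ 2) +
        JJ q (q + 2) * G K B N z w0 := by
    intro z w0
    refine (inner_upper' q hε (by positivity : (0:ℝ) ≤ ‖F K B N z w0‖ ^ 2) _ _).trans
      (le_of_eq ?_)
    rw [G_eq]
    unfold sd
    ring
  have m1 : Measurable (fun p : ℂ × ℂ => (ENNReal.ofReal ε * HH q) *
      ENNReal.ofReal (‖Fz K B N p.1 p.2‖ ^ 2 + ‖Fw K B N p.1 p.2‖ ^ 2)) :=
    (measurable_gam K B N).const_mul _
  have m2 : Measurable (fun p : ℂ × ℂ => JJ q (q + 2) * G K B N p.1 p.2) :=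
    (measurable_G K B N).const_mul _
  have s1 : ∀ z : ℂ, ∫⁻ w0 in Metric.ball (0:ℂ) 1, ((HH q + JJ q (q + 1)) +
      (ENNReal.ofReal ε * HH q) * ENNReal.ofReal (‖Fz K B N z w0‖ ^ 2 + ‖Fw K B N z w0‖ ^ 2) +
        JJ q (q + 2) * G K B N z w0) =
      volume (Metric.ball (0:ℂ) 1) * (HH q + JJ q (q + 1)) +
      (ENNReal.ofReal ε * HH q) * (∫⁻ w0 in Metric.ball (0:ℂ) 1,
        ENNReal.ofReal (‖Fz K B N z w0‖ ^ 2 + ‖Fw K B N z w0‖ ^ 2)) +
      JJ q (q + 2) * ∫⁻ w0 in Metric.ball (0:ℂ) 1, G K B N z w0 := by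
    intro z
    have hz : Measurable (fun w : ℂ => (z, w)) := measurable_const.prodMk measurable_id
    have n1 := m1.comp hz
    have n2 := (measurable_gam K B N).comp hz
    have n3 := (measurable_G K B N).comp hz
    simp only [Function.comp_def] at n1 n2 n3
    rw [lintegral_add_left (n1.const_add _), lintegral_add_left measurable_const,
      setLIntegral_const, lintegral_const_mul _ n2, lintegral_const_mul _ n3, mul_comm (HH q + _)]
  have s2 : ∫⁻ z in Metric.ball (0:ℂ) 1, (volume (Metric.ball (0:ℂ) 1) * (HH q + JJ q (q + 1)) +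
      (ENNReal.ofReal ε * HH q) * (∫⁻ w0 in Metric.ball (0:ℂ) 1,
        ENNReal.ofReal (‖Fz K B N z w0‖ ^ 2 + ‖Fw K B N z w0‖ ^ 2)) +
      JJ q (q + 2) * ∫⁻ w0 in Metric.ball (0:ℂ) 1, G K B N z w0) =
      volume (Metric.ball (0:ℂ) 1) * (volume (Metric.ball (0:ℂ) 1) * (HH q + JJ q (q + 1))) +
      (ENNReal.ofReal ε * HH q) * Gint K B N +
      JJ q (q + 2) * ∫⁻ z in Metric.ball (0:ℂ) 1, ∫⁻ w0 in Metric.ball (0:ℂ) 1, G K B N z w0 := by
    have n2 : Measurable (fun z : ℂ => ∫⁻ w0 in Metric.ball (0:ℂ) 1,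
        ENNReal.ofReal (‖Fz K B N z w0‖ ^ 2 + ‖Fw K B N z w0‖ ^ 2)) :=
      Measurable.lintegral_prod_right' (f := fun p : ℂ × ℂ =>
        ENNReal.ofReal (‖Fz K B N p.1 p.2‖ ^ 2 + ‖Fw K B N p.1 p.2‖ ^ 2)) (measurable_gam K B N)
    have n3 : Measurable (fun z : ℂ => ∫⁻ w0 in Metric.ball (0:ℂ) 1, G K B N z w0) :=
      Measurable.lintegral_prod_right' (f := fun p : ℂ × ℂ => G K B N p.1 p.2)
        (measurable_G K B N)
    rw [lintegral_add_left ((n2.const_mul _).const_add _), lintegral_add_left measurable_const,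
      setLIntegral_const, lintegral_const_mul _ n2, lintegral_const_mul _ n3,
      mul_comm (volume (Metric.ball (0:ℂ) 1) * (HH q + JJ q (q + 1)))]
    rfl
  calc _ ≤ ∫⁻ z in Metric.ball (0:ℂ) 1, ∫⁻ w0 in Metric.ball (0:ℂ) 1,
        ((HH q + JJ q (q + 1)) + (ENNReal.ofReal ε * HH q) *
        ENNReal.ofReal (‖Fz K B N z w0‖ ^ 2 + ‖Fw K B N z w0‖ ^ 2) +
        JJ q (q + 2) * G K B N z w0) :=
        lintegral_mono (fun z => lintegral_mono (fun w0 => h1 z w0))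
    _ = volume (Metric.ball (0:ℂ) 1) * (volume (Metric.ball (0:ℂ) 1) * (HH q + JJ q (q + 1))) +
      (ENNReal.ofReal ε * HH q) * Gint K B N +
      JJ q (q + 2) * ∫⁻ z in Metric.ball (0:ℂ) 1, ∫⁻ w0 in Metric.ball (0:ℂ) 1,
        G K B N z w0 := by
        rw [lintegral_congr s1, s2]
    _ ≤ _ := by
        have h3 : (ENNReal.ofReal ε * HH q) * Gint K B N ≤ HH q := by
          calc (ENNReal.ofReal ε * HH q) * Gint K B N =
              (ENNReal.ofReal ε * Gint K B N) * HH q := by ring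
            _ ≤ 1 * HH q := by gcongr
            _ = HH q := one_mul _
        rw [← mul_assoc]
        gcongr

/-! ### slices -/

/-- the bound for the excess of the slice density over the shell -/
noncomputable def slb (K B : ℝ) (N q : ℕ) (ε r : ℝ) (z w0 : ℂ) (w : Fin q → ℂ) : ℝ≥0∞ :=
  2 * hs q w + q1 q ε (‖F K B N z w0‖ ^ 2) w +
    ({w : ℂ | r < ‖w‖ ∧ ‖w‖ < 1}.indicator (1 : ℂ → ℝ≥0∞) w0 *
      ENNReal.ofReal (‖Fw K B N z w0‖ ^ 2)) * q2 q ε (‖F K B N z w0‖ ^ 2) w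

lemma measurableSet_ann (r : ℝ) : MeasurableSet {w : ℂ | r < ‖w‖ ∧ ‖w‖ < 1} :=
  (measurableSet_lt measurable_const measurable_norm).inter
    (measurableSet_lt measurable_norm measurable_const)

lemma measurable_gamw (K B : ℝ) (N : ℕ) : Measurable (fun p : ℂ × ℂ =>
    ENNReal.ofReal (‖Fw K B N p.1 p.2‖ ^ 2)) :=
  ((measurable_Fw K B N).norm.pow_const 2).ennreal_ofReal

lemma measurable_slb (K B : ℝ) (N q : ℕ) (ε r : ℝ) (z : ℂ) :
    Measurable (fun x : ℂ × (Fin q → ℂ) => slb K B N q ε r z x.1 x.2) := by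
  unfold slb q1 q2
  have hp : Measurable (fun x : ℂ × (Fin q → ℂ) => (z, x.1)) :=
    measurable_const.prodMk measurable_fst
  have hg := (measurable_gamw K B N).comp hp
  have hF := (measurable_F K B N).comp hp
  have hw : Measurable (fun x : ℂ × (Fin q → ℂ) => x.2) := measurable_snd
  have hh := (measurable_hs q).comp hw
  have hi : Measurable (fun x : ℂ × (Fin q → ℂ) =>
      {w : ℂ | r < ‖w‖ ∧ ‖w‖ < 1}.indicator (1 : ℂ → ℝ≥0∞) x.1) :=
    ((measurable_one.indicator (measurableSet_ann r))).comp measurable_fst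
  simp only [Function.comp_def] at hg hF hh
  refine ((hh.const_mul _).add ?_).add ((hi.mul hg).mul ?_)
  · apply Measurable.ennreal_ofReal
    exact ((((hF.norm.pow_const 2).const_add 1).const_mul _)).div
      (((hw.norm.pow_const 2).add (((hF.norm.pow_const 2).const_add 1).const_mul _)).pow_const _)
  · apply Measurable.ennreal_ofReal
    exact measurable_const.div
      (((hw.norm.pow_const 2).add (((hF.norm.pow_const 2).const_add 1).const_mul _)).pow_const _)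

lemma lintegral_slb_le (K B : ℝ) (N q : ℕ) {ε r : ℝ} (hε : 0 < ε) (z : ℂ) :
    ∫⁻ w0 in Metric.ball (0:ℂ) 1, ∫⁻ w in pd q, slb K B N q ε r z w0 w ≤
    volume (Metric.ball (0:ℂ) 1) * (2 * HH q + JJ q (q + 1)) +
      JJ q (q + 2) * Ew K B N z {w | r < ‖w‖ ∧ ‖w‖ < 1} := by
  have h1 : ∀ w0 : ℂ, ∫⁻ w in pd q, slb K B N q ε r z w0 w ≤
      (2 * HH q + JJ q (q + 1)) +
        JJ q (q + 2) * {w : ℂ | r < ‖w‖ ∧ ‖w‖ < 1}.indicator (ew K B N z) w0 := by
    intro w0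
    refine (inner_upper' q hε (by positivity : (0:ℝ) ≤ ‖F K B N z w0‖ ^ 2) _ _).trans
      (le_of_eq ?_)
    unfold ew sd
    by_cases hw : w0 ∈ {w : ℂ | r < ‖w‖ ∧ ‖w‖ < 1}
    · rw [indicator_of_mem hw, indicator_of_mem hw, Pi.one_apply]
      ring
    · rw [indicator_of_notMem hw, indicator_of_notMem hw]
      ring
  have hz : Measurable (fun w : ℂ => (z, w)) := measurable_const.prodMk measurable_id
  have n1 : Measurable (ew K B N z) := measurable_ew_sec K B N z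
  have n2 : Measurable ({w : ℂ | r < ‖w‖ ∧ ‖w‖ < 1}.indicator (ew K B N z)) :=
    n1.indicator (measurableSet_ann r)
  calc _ ≤ ∫⁻ w0 in Metric.ball (0:ℂ) 1, ((2 * HH q + JJ q (q + 1)) +
        JJ q (q + 2) * {w : ℂ | r < ‖w‖ ∧ ‖w‖ < 1}.indicator (ew K B N z) w0) :=
        lintegral_mono (fun w0 => h1 w0)
    _ = volume (Metric.ball (0:ℂ) 1) * (2 * HH q + JJ q (q + 1)) + JJ q (q + 2) *
        ∫⁻ w0 in Metric.ball (0:ℂ) 1, {w : ℂ | r < ‖w‖ ∧ ‖w‖ < 1}.indicator (ew K B N z) w0 := by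
        rw [lintegral_add_left measurable_const, setLIntegral_const, lintegral_const_mul _ n2,
          mul_comm (2 * HH q + _)]
    _ ≤ _ := by
        gcongr
        rw [Ew_eq_ew, ← lintegral_indicator (measurableSet_ann r)]
        exact setLIntegral_le_lintegral _ _

/-- on the shell the excess of the slice density is at most `slb + 1` -/
lemma slice_pointwise (K B : ℝ) (N q : ℕ) {ε r Γ : ℝ} (hε : 0 < ε) (hr : 0 < r) (z w0 : ℂ)
    (w : Fin q → ℂ) (h1 : ε * Γ ^ 2 ≤ 1) (h2 : Γ ^ 2 * (ε ^ 4 / (r ^ 2) ^ (q + 2)) ≤ 1)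
    (hΓ : ‖Fw K B N z w0‖ ^ 2 ≤ Γ ^ 2) (hw0 : ‖w0‖ < 1) (hsh : r < ‖w0‖ ∨ r < ‖w‖) :
    (1 + ENNReal.ofReal ε * ENNReal.ofReal (‖Fw K B N z w0‖ ^ 2)) * hs q w +
        q1 q ε (‖F K B N z w0‖ ^ 2) w +
        ENNReal.ofReal (‖Fw K B N z w0‖ ^ 2) * q2 q ε (‖F K B N z w0‖ ^ 2) w ≤
      slb K B N q ε r z w0 w + 1 := by
  have e1 : (1 : ℝ≥0∞) + ENNReal.ofReal ε * ENNReal.ofReal (‖Fw K B N z w0‖ ^ 2) ≤ 2 := by
    rw [← ENNReal.ofReal_mul hε.le]
    have : ENNReal.ofReal (ε * ‖Fw K B N z w0‖ ^ 2) ≤ 1 := by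
      rw [← ENNReal.ofReal_one]
      apply ENNReal.ofReal_le_ofReal
      exact (mul_le_mul_of_nonneg_left hΓ hε.le).trans h1
    calc (1 : ℝ≥0∞) + ENNReal.ofReal (ε * ‖Fw K B N z w0‖ ^ 2) ≤ 1 + 1 := by gcongr
      _ = 2 := one_add_one_eq_two
  unfold slb
  by_cases hw : r < ‖w0‖
  · rw [indicator_of_mem (show w0 ∈ {w : ℂ | r < ‖w‖ ∧ ‖w‖ < 1} from ⟨hw, hw0⟩), Pi.one_apply,
      one_mul]
    refine le_trans ?_ le_self_add
    gcongr
  · have hw' : r < ‖w‖ := by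
      rcases hsh with h | h
      · exact absurd h hw
      · exact h
    rw [indicator_of_notMem (show w0 ∉ {w : ℂ | r < ‖w‖ ∧ ‖w‖ < 1} from fun h => hw h.1), zero_mul,
      zero_mul, add_zero]
    have e2 : ENNReal.ofReal (‖Fw K B N z w0‖ ^ 2) * q2 q ε (‖F K B N z w0‖ ^ 2) w ≤ 1 := by
      unfold q2
      rw [← ENNReal.ofReal_mul (by positivity), ← ENNReal.ofReal_one]
      apply ENNReal.ofReal_le_ofReal
      refine le_trans ?_ h2
      have hb : 0 ≤ ε ^ 2 * (1 + ‖F K B N z w0‖ ^ 2) := by positivity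
      have hrw : r ^ 2 ≤ ‖w‖ ^ 2 + ε ^ 2 * (1 + ‖F K B N z w0‖ ^ 2) := by
        have := pow_le_pow_left₀ hr.le hw'.le 2
        linarith
      apply mul_le_mul hΓ _ (by positivity) (by positivity)
      apply div_le_div_of_nonneg_left (by positivity) (by positivity)
      exact pow_le_pow_left₀ (by positivity) hrw _
    gcongr

end Pool.Agent.Lib.Pc848f8k
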