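import Pool.Agent.Lib.Pc848f8.Multi

/-!
# MP_c848f8_an, all k: integrals in the extra variables
-/

set_option autoImplicit false

namespace Pool.Agent.Lib.Pc848f8k

open MeasureTheory Set Filter Topology Module
open scoped ENNReal

/-- the polydisk -/
def pd (n : ℕ) : Set (Fin n → ℂ) := Set.pi univ (fun _ : Fin n => Metric.ball (0:ℂ) 1)

lemma measurableSet_pd (n : ℕ) : MeasurableSet (pd n) :=
  MeasurableSet.univ_pi (fun _ => measurableSet_ball)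

lemma mem_pd {n : ℕ} {w : Fin n → ℂ} : w ∈ pd n ↔ ∀ i, ‖w i‖ < 1 := by
  simp [pd]

lemma volume_pd_lt_top (n : ℕ) : volume (pd n) < ⊤ := by
  unfold pd
  rw [volume_pi_pi]
  exact ENNReal.prod_lt_top (fun _ _ => measure_ball_lt_top)

lemma norm_lt_of_mem_pd {n : ℕ} {w : Fin n → ℂ} (hw : w ∈ pd n) : ‖w‖ < 1 :=
  (pi_norm_lt_iff one_pos).mpr (mem_pd.mp hw)

lemma pd_eq_ball (n : ℕ) : pd n = Metric.ball (0 : Fin n → ℂ) 1 := by
  ext w
  rw [mem_pd, mem_ball_zero_iff, pi_norm_lt_iff one_pos]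

/-- `∫ (1+‖u‖²)^{-p}` -/
noncomputable def JJ (q p : ℕ) : ℝ≥0∞ :=
  ∫⁻ u : Fin q → ℂ, ENNReal.ofReal (1 / (1 + ‖u‖ ^ 2) ^ p)

lemma finrank_pi (q : ℕ) : finrank ℝ (Fin q → ℂ) = 2 * q := by
  rw [finrank_pi_fintype]
  simp [Complex.finrank_real_complex, mul_comm]

lemma JJ_lt_top {q p : ℕ} (h : q < p) : JJ q p < ⊤ := by
  have h1 : Integrable (fun x : Fin q → ℂ => (1 + ‖x‖ ^ 2) ^ (-(2 * p : ℝ) / 2)) volume := by
    apply integrable_rpow_neg_one_add_norm_sq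
    rw [finrank_pi]
    have : (q : ℝ) < p := by exact_mod_cast h
    push_cast
    linarith
  have h2 := h1.lintegral_lt_top
  refine lt_of_le_of_lt (le_of_eq ?_) h2
  unfold JJ
  apply lintegral_congr
  intro x
  congr 1
  have h3 : 0 < 1 + ‖x‖ ^ 2 := by positivity
  rw [show -(2 * p : ℝ) / 2 = -(p : ℝ) by ring, Real.rpow_neg h3.le, Real.rpow_natCast, one_div]

/-- scaling -/
lemma lintegral_scale (q p : ℕ) {b : ℝ} (hb : 0 < b) :
    ∫⁻ w : Fin q → ℂ, ENNReal.ofReal (1 / (‖w‖ ^ 2 + b) ^ p) =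
      ENNReal.ofReal (b ^ q / b ^ p) * JJ q p := by
  have hs : 0 < Real.sqrt b := Real.sqrt_pos.mpr hb
  have hmap := Measure.map_addHaar_smul (volume : Measure (Fin q → ℂ)) hs.ne'
  have hsq : Real.sqrt b ^ (2 * q) = b ^ q := by rw [pow_mul, Real.sq_sqrt hb.le]
  rw [finrank_pi, hsq] at hmap
  have hbq : 0 < b ^ q := by positivity
  rw [abs_of_pos (inv_pos.mpr hbq)] at hmap
  set g : (Fin q → ℂ) → ℝ≥0∞ := fun w => ENNReal.ofReal (1 / (‖w‖ ^ 2 + b) ^ p) with hg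
  have hgm : Measurable g := by
    apply Measurable.ennreal_ofReal
    fun_prop
  have h1 : ∫⁻ u : Fin q → ℂ, g (Real.sqrt b • u) = ENNReal.ofReal ((b ^ q)⁻¹) * ∫⁻ w, g w := by
    have h2 : ∫⁻ w, g w ∂(Measure.map (fun u : Fin q → ℂ => Real.sqrt b • u) volume) =
        ∫⁻ u : Fin q → ℂ, g (Real.sqrt b • u) :=
      lintegral_map hgm (measurable_const_smul _)
    rw [← h2, hmap, lintegral_smul_measure, smul_eq_mul]
  have h3 : ∫⁻ u : Fin q → ℂ, g (Real.sqrt b • u) = ENNReal.ofReal (1 / b ^ p) * JJ q p := by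
    unfold JJ
    rw [← lintegral_const_mul' _ _ ENNReal.ofReal_ne_top]
    apply lintegral_congr
    intro u
    rw [← ENNReal.ofReal_mul (by positivity)]
    simp only [hg]
    congr 1
    rw [norm_smul, Real.norm_of_nonneg hs.le, mul_pow, Real.sq_sqrt hb.le,
      show b * ‖u‖ ^ 2 + b = b * (1 + ‖u‖ ^ 2) by ring, mul_pow]
    field_simp
  have h4 : ∫⁻ w, g w = ENNReal.ofReal (b ^ q) * (ENNReal.ofReal ((b ^ q)⁻¹) * ∫⁻ w, g w) := by
    rw [← mul_assoc, ← ENNReal.ofReal_mul hbq.le, mul_inv_cancel₀ hbq.ne', ENNReal.ofReal_one,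
      one_mul]
  rw [h4, ← h1, h3, ← mul_assoc, ← ENNReal.ofReal_mul hbq.le]
  congr 2
  ring

/-- the singular function `‖w‖^{-(2q-1)}` -/
noncomputable def hs (q : ℕ) (w : Fin q → ℂ) : ℝ≥0∞ := (ENNReal.ofReal (‖w‖ ^ (2 * q - 1)))⁻¹

lemma measurable_hs (q : ℕ) : Measurable (hs q) := by
  unfold hs
  apply Measurable.inv
  apply Measurable.ennreal_ofReal
  fun_prop

/-- the singular integral -/
noncomputable def HH (q : ℕ) : ℝ≥0∞ := ∫⁻ w in pd q, hs q w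

lemma HH_lt_top (q : ℕ) : HH q < ⊤ := by
  unfold HH
  rcases q with _ | q
  · simp only [hs, Nat.mul_zero, Nat.zero_sub, pow_zero, inv_one, ENNReal.ofReal_one]
    rw [setLIntegral_const, one_mul]
    exact volume_pd_lt_top 0
  · have h1 : IntegrableOn (fun x : Fin (q + 1) → ℂ => (fun y : ℝ => (y ^ (2 * (q + 1) - 1))⁻¹) ‖x‖)
        (Metric.ball 0 1) volume := by
      refine (integrableOn_fun_norm_addHaar (μ := (volume : Measure (Fin (q + 1) → ℂ)))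
        (f := fun y : ℝ => (y ^ (2 * (q + 1) - 1))⁻¹) (r := 1)).mpr ?_
      rw [finrank_pi]
      have h2 : EqOn (fun _ : ℝ => (1:ℝ)) (fun y : ℝ => y ^ (2 * (q + 1) - 1) • (y ^ (2 * (q + 1) - 1))⁻¹)
          (Ioo 0 1) := by
        intro y hy
        simp only [smul_eq_mul]
        have : y ^ (2 * (q + 1) - 1) ≠ 0 := pow_ne_zero _ hy.1.ne'
        rw [mul_inv_cancel₀ this]
      refine IntegrableOn.congr_fun ?_ h2 measurableSet_Ioo
      exact integrableOn_const (by simp) (by simp)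
    rw [pd_eq_ball]
    refine lt_of_le_of_lt (le_of_eq ?_) h1.lintegral_lt_top
    apply lintegral_congr_ae
    have h3 : ∀ᵐ w : Fin (q + 1) → ℂ ∂(volume.restrict (Metric.ball 0 1)), w ≠ 0 := by
      apply ae_restrict_of_ae
      exact Measure.ae_ne volume 0
    filter_upwards [h3] with w hw
    have h4 : 0 < ‖w‖ := norm_pos_iff.mpr hw
    unfold hs
    rw [ENNReal.ofReal_inv_of_pos (by positivity)]

/-- lower bound ingredient -/
lemma volume_ball_pi (q : ℕ) {r : ℝ} (hr : 0 < r) :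
    volume (Metric.ball (0 : Fin q → ℂ) r) = ENNReal.ofReal ((Real.pi * r ^ 2) ^ q) := by
  rw [MeasureTheory.volume_pi_ball _ hr]
  simp only [Pi.zero_apply, Complex.volume_ball, Finset.prod_const, Finset.card_univ,
    Fintype.card_fin]
  rw [ENNReal.ofReal_pow (by positivity), mul_comm Real.pi, ENNReal.ofReal_mul (by positivity),
    ENNReal.ofReal_pow hr.le]
  congr 2
  rw [← NNReal.coe_real_pi, ENNReal.ofReal_coe_nnreal]

lemma lint3 {X : Type*} [MeasurableSpace X] (μ : Measure X) (f g h : X → ℝ≥0∞)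
    (hf : Measurable f) (hg : Measurable g) (hh : Measurable h) {a c : ℝ≥0∞} :
    ∫⁻ x, (a * f x + g x + c * h x) ∂μ = a * ∫⁻ x, f x ∂μ + ∫⁻ x, g x ∂μ + c * ∫⁻ x, h x ∂μ := by
  have h1 : ∫⁻ x, (a * f x + g x + c * h x) ∂μ =
      (∫⁻ x, (a * f x + g x) ∂μ) + ∫⁻ x, c * h x ∂μ :=
    lintegral_add_left ((hf.const_mul a).add hg) _
  have h2 : ∫⁻ x, (a * f x + g x) ∂μ = (∫⁻ x, a * f x ∂μ) + ∫⁻ x, g x ∂μ :=
    lintegral_add_left (hf.const_mul a) _
  rw [h1, h2, lintegral_const_mul _ hf, lintegral_const_mul _ hh]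

/-- upper bound for the inner integral -/
lemma inner_upper (q : ℕ) {ε t : ℝ} (hε : 0 < ε) (ht : 0 ≤ t) (g1 g : ℝ≥0∞) :
    ∫⁻ w in pd q, (g1 * hs q w +
      ENNReal.ofReal (ε ^ 2 * (1 + t) / (‖w‖ ^ 2 + ε ^ 2 * (1 + t)) ^ (q + 1)) +
      g * ENNReal.ofReal (ε ^ 4 / (‖w‖ ^ 2 + ε ^ 2 * (1 + t)) ^ (q + 2))) ≤
    g1 * HH q + JJ q (q + 1) + g * (ENNReal.ofReal (1 / (1 + t) ^ 2) * JJ q (q + 2)) := by
  have hb : 0 < ε ^ 2 * (1 + t) := by positivity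
  have ht1 : 0 < 1 + t := by linarith
  have m1 : Measurable (fun w : Fin q → ℂ => hs q w) := measurable_hs q
  have m2 : Measurable (fun w : Fin q → ℂ =>
      ENNReal.ofReal (ε ^ 2 * (1 + t) / (‖w‖ ^ 2 + ε ^ 2 * (1 + t)) ^ (q + 1))) := by
    apply Measurable.ennreal_ofReal
    fun_prop
  have m3 : Measurable (fun w : Fin q → ℂ =>
      ENNReal.ofReal (ε ^ 4 / (‖w‖ ^ 2 + ε ^ 2 * (1 + t)) ^ (q + 2))) := by
    apply Measurable.ennreal_ofReal
    fun_prop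
  rw [lint3 _ _ _ _ m1 m2 m3]
  have i2 : ∫⁻ w in pd q,
      ENNReal.ofReal (ε ^ 2 * (1 + t) / (‖w‖ ^ 2 + ε ^ 2 * (1 + t)) ^ (q + 1)) ≤
      JJ q (q + 1) := by
    refine (setLIntegral_le_lintegral _ _).trans (le_of_eq ?_)
    have e : ∀ w : Fin q → ℂ,
        ENNReal.ofReal (ε ^ 2 * (1 + t) / (‖w‖ ^ 2 + ε ^ 2 * (1 + t)) ^ (q + 1)) =
        ENNReal.ofReal (ε ^ 2 * (1 + t)) *
          ENNReal.ofReal (1 / (‖w‖ ^ 2 + ε ^ 2 * (1 + t)) ^ (q + 1)) := by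
      intro w
      rw [← ENNReal.ofReal_mul hb.le]
      congr 1
      ring
    rw [lintegral_congr e, lintegral_const_mul' _ _ ENNReal.ofReal_ne_top, lintegral_scale q _ hb,
      ← mul_assoc, ← ENNReal.ofReal_mul hb.le]
    have e2 : ε ^ 2 * (1 + t) * ((ε ^ 2 * (1 + t)) ^ q / (ε ^ 2 * (1 + t)) ^ (q + 1)) = 1 := by
      rw [pow_succ (ε ^ 2 * (1 + t)) q]
      field_simp
    rw [e2, ENNReal.ofReal_one, one_mul]
  have i3 : ∫⁻ w in pd q,
      ENNReal.ofReal (ε ^ 4 / (‖w‖ ^ 2 + ε ^ 2 * (1 + t)) ^ (q + 2)) ≤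
      ENNReal.ofReal (1 / (1 + t) ^ 2) * JJ q (q + 2) := by
    refine (setLIntegral_le_lintegral _ _).trans (le_of_eq ?_)
    have e : ∀ w : Fin q → ℂ,
        ENNReal.ofReal (ε ^ 4 / (‖w‖ ^ 2 + ε ^ 2 * (1 + t)) ^ (q + 2)) =
        ENNReal.ofReal (ε ^ 4) *
          ENNReal.ofReal (1 / (‖w‖ ^ 2 + ε ^ 2 * (1 + t)) ^ (q + 2)) := by
      intro w
      rw [← ENNReal.ofReal_mul (by positivity)]
      congr 1
      ring
    rw [lintegral_congr e, lintegral_const_mul' _ _ ENNReal.ofReal_ne_top, lintegral_scale q _ hb,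
      ← mul_assoc, ← ENNReal.ofReal_mul (by positivity)]
    have e2 : ε ^ 4 * ((ε ^ 2 * (1 + t)) ^ q / (ε ^ 2 * (1 + t)) ^ (q + 2)) =
        1 / (1 + t) ^ 2 := by
      rw [pow_add (ε ^ 2 * (1 + t)) q 2]
      field_simp
    rw [e2]
  unfold HH
  gcongr

/-- lower bound for the inner integral -/
lemma inner_lower (q : ℕ) {c ε γ t : ℝ} (hc : 0 < c) (hε : 0 < ε) (hγ : 0 ≤ γ) (ht : 0 ≤ t)
    (hb1 : ε ^ 2 * (1 + t) ≤ 1) :
    ENNReal.ofReal (c ^ (q + 1) * Real.pi ^ q / (q + 1) ^ (q + 2)) *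
      (ENNReal.ofReal γ * ENNReal.ofReal (1 / (1 + t) ^ 2)) ≤
    ∫⁻ w in pd q, ENNReal.ofReal (c ^ (q + 1) * γ * ε ^ 4 /
      (∑ i, ‖w i‖ ^ 2 + ε ^ 2 * (1 + t)) ^ (q + 2)) := by
  have ht1 : 0 < 1 + t := by linarith
  set b : ℝ := ε ^ 2 * (1 + t) with hbdef
  have hb : 0 < b := by positivity
  have hs : 0 < Real.sqrt b := Real.sqrt_pos.mpr hb
  have hs1 : Real.sqrt b ≤ 1 := Real.sqrt_le_one.mpr hb1
  have hsub : Metric.ball (0 : Fin q → ℂ) (Real.sqrt b) ⊆ pd q := by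
    rw [pd_eq_ball]
    exact Metric.ball_subset_ball hs1
  have hge : ∀ w ∈ Metric.ball (0 : Fin q → ℂ) (Real.sqrt b),
      ENNReal.ofReal (c ^ (q + 1) * γ * ε ^ 4 / ((q + 1) * b) ^ (q + 2)) ≤
      ENNReal.ofReal (c ^ (q + 1) * γ * ε ^ 4 / (∑ i, ‖w i‖ ^ 2 + b) ^ (q + 2)) := by
    intro w hw
    apply ENNReal.ofReal_le_ofReal
    have hw1 : ‖w‖ < Real.sqrt b := mem_ball_zero_iff.mp hw
    have hsum : ∑ i, ‖w i‖ ^ 2 ≤ q * b := by
      calc ∑ i, ‖w i‖ ^ 2 ≤ ∑ _i : Fin q, b := by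
            apply Finset.sum_le_sum
            intro i _
            have h1 : ‖w i‖ ≤ Real.sqrt b := (norm_le_pi_norm w i).trans hw1.le
            calc ‖w i‖ ^ 2 ≤ Real.sqrt b ^ 2 := pow_le_pow_left₀ (norm_nonneg _) h1 2
              _ = b := Real.sq_sqrt hb.le
        _ = q * b := by simp
    have h0 : 0 ≤ ∑ i, ‖w i‖ ^ 2 := Finset.sum_nonneg (fun _ _ => by positivity)
    apply div_le_div_of_nonneg_left (by positivity) (by positivity)
    apply pow_le_pow_left₀ (by positivity)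
    linarith
  calc _ = ENNReal.ofReal (c ^ (q + 1) * γ * ε ^ 4 / ((q + 1) * b) ^ (q + 2)) *
        volume (Metric.ball (0 : Fin q → ℂ) (Real.sqrt b)) := by
        rw [volume_ball_pi q hs, Real.sq_sqrt hb.le, ← ENNReal.ofReal_mul hγ,
          ← ENNReal.ofReal_mul (by positivity), ← ENNReal.ofReal_mul (by positivity)]
        congr 1
        have e3 : 1 / (1 + t) ^ 2 = ε ^ 4 / b ^ 2 := by
          rw [hbdef]
          field_simp
        rw [e3, mul_pow _ b, mul_pow _ b, pow_add b q 2]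
        field_simp
    _ = ∫⁻ _w in Metric.ball (0 : Fin q → ℂ) (Real.sqrt b),
        ENNReal.ofReal (c ^ (q + 1) * γ * ε ^ 4 / ((q + 1) * b) ^ (q + 2)) := by
        rw [setLIntegral_const]
    _ ≤ ∫⁻ w in Metric.ball (0 : Fin q → ℂ) (Real.sqrt b), ENNReal.ofReal
        (c ^ (q + 1) * γ * ε ^ 4 / (∑ i, ‖w i‖ ^ 2 + b) ^ (q + 2)) :=
        setLIntegral_mono' measurableSet_ball hge
    _ ≤ _ := lintegral_mono_set hsub

end Pool.Agent.Lib.Pc848f8k
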