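import Pool.Agent.Lib.Pc848f8k.Dens
import Pool.Agent.Lib.Pc848f8.Multi

/-!
# MP_c848f8_an, all k: the map and its metric
-/

set_option autoImplicit false

namespace Pool.Agent.Lib.Pc848f8k

open Matrix ComplexConjugate Finset

/-- `x ↦ (φ x, x_{σ i} / ε)` -/
noncomputable def mp {n q : ℕ} (φ : (Fin n → ℂ) → ℂ) (σ : Fin q → Fin n) (ε : ℝ)
    (x : Fin n → ℂ) : Fin (q + 1) → ℂ :=
  Fin.cons (φ x) (fun i => (ε : ℂ)⁻¹ * x (σ i))

/-- the derivative -/
noncomputable def mp' {n q : ℕ} (φ' : (Fin n → ℂ) →L[ℂ] ℂ) (σ : Fin q → Fin n) (ε : ℝ) :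
    (Fin n → ℂ) →L[ℂ] (Fin (q + 1) → ℂ) :=
  ContinuousLinearMap.pi (Fin.cases φ' (fun i => (ε : ℂ)⁻¹ • ContinuousLinearMap.proj (σ i)))

lemma hasFDerivAt_mp {n q : ℕ} (φ : (Fin n → ℂ) → ℂ) (σ : Fin q → Fin n) (ε : ℝ)
    (x : Fin n → ℂ) (φ' : (Fin n → ℂ) →L[ℂ] ℂ) (h : HasFDerivAt φ φ' x) :
    HasFDerivAt (mp φ σ ε) (mp' φ' σ ε) x := by
  unfold mp'
  rw [hasFDerivAt_pi]
  intro a
  refine Fin.cases ?_ (fun i => ?_) a
  · exact h
  · have h2 : HasFDerivAt (fun x : Fin n → ℂ => x (σ i))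
        (ContinuousLinearMap.proj (R := ℂ) (φ := fun _ : Fin n => ℂ) (σ i)) x :=
      (ContinuousLinearMap.proj (R := ℂ) (φ := fun _ : Fin n => ℂ) (σ i)).hasFDerivAt
    exact h2.const_mul ((ε : ℂ)⁻¹)

lemma fderiv_mp_zero {n q : ℕ} (φ : (Fin n → ℂ) → ℂ) (σ : Fin q → Fin n) (ε : ℝ)
    (x : Fin n → ℂ) (h : DifferentiableAt ℂ φ x) (v : Fin n → ℂ) :
    fderiv ℂ (mp φ σ ε) x v 0 = fderiv ℂ φ x v := by
  rw [(hasFDerivAt_mp φ σ ε x _ h.hasFDerivAt).fderiv]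
  rfl

lemma fderiv_mp_succ {n q : ℕ} (φ : (Fin n → ℂ) → ℂ) (σ : Fin q → Fin n) (ε : ℝ)
    (x : Fin n → ℂ) (h : DifferentiableAt ℂ φ x) (v : Fin n → ℂ) (i : Fin q) :
    fderiv ℂ (mp φ σ ε) x v i.succ = (ε : ℂ)⁻¹ * v (σ i) := by
  rw [(hasFDerivAt_mp φ σ ε x _ h.hasFDerivAt).fderiv]
  rfl

/-- the determinant of the metric of the graph of `mp` -/
lemma det_mp {n q : ℕ} (φ : (Fin n → ℂ) → ℂ) (σ : Fin q → Fin n) (hσ : Function.Injective σ)
    {ε : ℝ} (hε : 0 < ε) {c : ℝ} (hc : 0 < c) (x : Fin n → ℂ) (h : DifferentiableAt ℂ φ x)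
    (h0 : ∀ i, fderiv ℂ φ x (Pi.single (σ i) 1) = 0) :
    (Matrix.det (1 + Matrix.of fun i j : Fin n => (c : ℂ) * ∑ a, ∑ b,
      fs (mp φ σ ε x) a b * fderiv ℂ (mp φ σ ε) x (Pi.single i 1) a *
        conj (fderiv ℂ (mp φ σ ε) x (Pi.single j 1) b))).re =
    dens q c ε (∑ i, ‖fderiv ℂ φ x (Pi.single i 1)‖ ^ 2) (‖φ x‖ ^ 2) (∑ i, ‖x (σ i)‖ ^ 2) := by
  set γ : ℝ := ∑ i, ‖fderiv ℂ φ x (Pi.single i 1)‖ ^ 2 with hγ
  have hγ0 : 0 ≤ γ := Finset.sum_nonneg (fun _ _ => by positivity)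
  have hs0 : 0 ≤ ∑ i, ‖x (σ i)‖ ^ 2 := Finset.sum_nonneg (fun _ _ => by positivity)
  have hεc : (ε : ℂ) ≠ 0 := by exact_mod_cast hε.ne'
  set d : Fin (q + 1) → ℝ := Fin.cons γ (fun _ => (ε ^ 2)⁻¹) with hd
  have hd0 : ∀ a, 0 ≤ d a := by
    intro a
    refine Fin.cases ?_ (fun i => ?_) a
    · exact hγ0
    · simp only [hd, Fin.cons_succ]
      positivity
  have hdet := det_metric (fun i a => fderiv ℂ (mp φ σ ε) x (Pi.single i 1) a) (mp φ σ ε x) d hd0
    c hc ?_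
  · rw [hdet]
    have e0 : mp φ σ ε x 0 = φ x := rfl
    have e1 : ∀ i : Fin q, mp φ σ ε x i.succ = (ε : ℂ)⁻¹ * x (σ i) := fun i => rfl
    have e2 : ∀ i : Fin q, ‖(ε : ℂ)⁻¹ * x (σ i)‖ ^ 2 = ‖x (σ i)‖ ^ 2 / ε ^ 2 := by
      intro i
      rw [norm_mul, norm_inv, Complex.norm_real, Real.norm_of_nonneg hε.le, mul_pow]
      field_simp
    have e3 : (1 : ℝ) + ∑ i, ‖mp φ σ ε x i‖ ^ 2 =
        1 + ‖φ x‖ ^ 2 + (∑ i, ‖x (σ i)‖ ^ 2) / ε ^ 2 := by
      rw [Fin.sum_univ_succ, e0, Finset.sum_div]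
      simp only [e1, e2]
      ring
    rw [e3, Fin.prod_univ_succ, Fin.sum_univ_succ]
    set N : ℝ := 1 + ‖φ x‖ ^ 2 + (∑ i, ‖x (σ i)‖ ^ 2) / ε ^ 2 with hN
    have hd1 : d 0 = γ := rfl
    have hd2 : ∀ i : Fin q, d i.succ = (ε ^ 2)⁻¹ := fun i => rfl
    rw [hd1, e0]
    simp only [hd2, e1, e2, Finset.prod_const, Finset.card_univ, Fintype.card_fin]
    rw [← dens_formula q hc hε hγ0 (by positivity : (0:ℝ) ≤ ‖φ x‖ ^ 2) hs0 N hN]
    congr 2
    congr 1
    rw [← Finset.sum_div, ← Finset.sum_div, ← Finset.mul_sum, Finset.sum_div]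
  · intro a b
    refine Fin.cases ?_ (fun i => ?_) a
    · refine Fin.cases ?_ (fun i' => ?_) b
      · simp only [fderiv_mp_zero φ σ ε x h, if_true]
        have e4 : d 0 = γ := rfl
        rw [e4, hγ]
        push_cast
        apply Finset.sum_congr rfl
        intro j _
        exact Complex.conj_mul' _
      · simp only [fderiv_mp_zero φ σ ε x h, fderiv_mp_succ φ σ ε x h]
        rw [if_neg (Fin.succ_ne_zero i').symm]
        rw [Finset.sum_eq_single (σ i')]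
        · rw [h0]
          simp
        · intro j _ hj
          rw [Pi.single_eq_of_ne hj.symm]
          simp
        · intro h
          exact absurd (Finset.mem_univ _) h
    · refine Fin.cases ?_ (fun i' => ?_) b
      · simp only [fderiv_mp_zero φ σ ε x h, fderiv_mp_succ φ σ ε x h]
        rw [if_neg (Fin.succ_ne_zero i)]
        rw [Finset.sum_eq_single (σ i)]
        · rw [h0]
          simp
        · intro j _ hj
          rw [Pi.single_eq_of_ne hj.symm]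
          simp
        · intro h
          exact absurd (Finset.mem_univ _) h
      · simp only [fderiv_mp_succ φ σ ε x h]
        rw [Finset.sum_eq_single (σ i)]
        · by_cases hii : i = i'
          · subst hii
            rw [if_pos rfl, Pi.single_eq_same]
            have e5 : d i.succ = (ε ^ 2)⁻¹ := rfl
            rw [e5]
            push_cast
            simp
            ring
          · rw [if_neg (fun hh => hii (Fin.succ_injective _ hh)),
              Pi.single_eq_of_ne (fun hh => hii (hσ hh.symm))]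
            simp
        · intro j _ hj
          rw [Pi.single_eq_of_ne hj.symm]
          simp
        · intro h
          exact absurd (Finset.mem_univ _) h

end Pool.Agent.Lib.Pc848f8k
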